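import Pool.Agent.Run7.h410.GK.PA

/-!
# Project GK: the conclusion as a nonzero equivariant map, and the component of the `p`-primary part
-/

set_option autoImplicit false

namespace Run7.h400.GK

open Polynomial Finset TensorProduct nonZeroDivisors Run7.h410.GK

/-- a nonzero additive map `κ : E → Cl(O_F)` with `σ κ(γ) = κ(u_σ^k γ)`, `u_σ = a(θ)` for `σ λ = C_a(λ)` -/
def ConclK (Fq E F : Type) [Field Fq] [Fintype Fq] [Field E] [Algebra Fq E]
    [Field F] [Algebra Fq[X] F] [Algebra (RatFunc Fq) F] [IsScalarTower Fq[X] (RatFunc Fq) F]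
    (θ : E) (q k : ℕ) (lm : F) : Prop :=
  ∃ u : (F ≃ₐ[RatFunc Fq] F) →* E, (∀ σ (a : Fq[X]), σ lm = cact q a lm → u σ = aeval θ a) ∧
  ∃ _hD : IsDedekindDomain (OF Fq F),
  ∃ ρ : (F ≃ₐ[RatFunc Fq] F) → (ClassGroup (OF Fq F) →* ClassGroup (OF Fq F)),
    (∀ σ (I J : (Ideal (OF Fq F))⁰), (J : Ideal (OF Fq F)) = (I : Ideal (OF Fq F)).map (sO (Fq := Fq) σ) →
      ρ σ (ClassGroup.mk0 I) = ClassGroup.mk0 J) ∧
    ∃ κ : E →+ Additive (ClassGroup (OF Fq F)), κ ≠ 0 ∧
      ∀ (σ : F ≃ₐ[RatFunc Fq] F) (γ : E), (MonoidHom.toAdditive (ρ σ)) (κ γ) = κ (u σ ^ k * γ)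

/-- `S_PA` with the conclusion `ConclK` -/
def S_PAk : Prop := ∀ (p : ℕ) [Fact p.Prime] (Fq E F : Type) [Field Fq] [Fintype Fq] [Field E]
  [Fintype E] [Algebra Fq E] [CharP E p]
  [Field F] [Algebra Fq[X] F] [Algebra (RatFunc Fq) F] [IsScalarTower Fq[X] (RatFunc Fq) F]
  (w : Fq[X]) (θ : E) (f₀ q d k : ℕ) (lm : F) (f : Fin 2 → E[X]),
  Dat Fq E w θ q d → CFD Fq F w q lm → q = p ^ f₀ → 0 < k → k < q ^ d - 1 → (q - 1) ∣ k →
  LinearIndependent E f → (∀ i, Lam q (f i * PP q d k θ) = f i) → ConclK Fq E F θ q k lm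

set_option maxHeartbeats 1000000 in
/-- The assembly of part A in the form of an equivariant map (the proof is helper410's `t_PA`, stopped one step earlier). -/
theorem t_PAk (hGAL : S_GAL) (hDER : S_DER) (hCAT : S_CAT) (hVAL : S_VAL) (hZGA : S_ZGA) (hHLG : S_HLG)
    (hRTP : S_RTP) (hRHO : S_RHO) (hUNB : S_UNB) : S_PAk := by
  intro p hpf Fq E F _ _ _ _ _ _ _ _ _ _ w θ f₀ q d k lm f hDat hCFD hq hk0 hk1 hk2 hlin hfix
  classical
  have hp : p.Prime := hpf.out
  have hp0 : 0 < p := hp.pos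
  have hd1 : 1 ≤ d := hDat.hd1
  have h2 : 2 < q ^ d := by omega
  have hq2 : 2 ≤ q := by
    rw [hDat.hq]; exact Fintype.one_lt_card
  have hf₀ : f₀ ≠ 0 := by
    rintro rfl
    rw [pow_zero] at hq; omega
  have hpq : p ∣ q := by rw [hq]; exact dvd_pow_self p hf₀
  -- the algebra structures
  let algF : Algebra Fq F := ((algebraMap Fq[X] F).comp C).toAlgebra
  have towF : IsScalarTower Fq Fq[X] F := IsScalarTower.of_algebraMap_eq (fun x => rfl)
  have : CharP Fq p := ((algebraMap Fq E).charP_iff (algebraMap Fq E).injective p).mpr inferInstance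
  have : CharP F p := ((algebraMap Fq F).charP_iff (algebraMap Fq F).injective p).mp inferInstance
  obtain ⟨hfd, hgal, hcard, u, hu0, hut, hua⟩ := hGAL Fq E F w θ q d lm hDat hCFD
  have := hfd
  have := hgal
  have : IsDedekindDomain (OF Fq F) := integralClosure.isDedekindDomain Fq[X] (RatFunc Fq) F
  have : IsFractionRing (OF Fq F) F :=
    integralClosure.isFractionRing_of_finite_extension (RatFunc Fq) F
  obtain ⟨D, hDd, hDσ, hDint, hDmax⟩ := hDER Fq E F w θ q d lm hDat hCFD h2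
  have hD := hDd.1
  obtain ⟨hDp, hker, Cr, hCr, hCrp, hCrσ, hCrint⟩ :=
    hCAT Fq E F w θ p q d lm D hDat hCFD hp hpq h2 hDd hDσ hDint
  obtain ⟨ρ, hρ1, hρ2⟩ := hRHO Fq F
  obtain ⟨v, hv⟩ := hVAL Fq E F w θ q d lm hDat hCFD
  obtain ⟨zg, hzC, hzint, hzσ, hzne, hzfix⟩ :=
    hZGA Fq E F w θ p f₀ q d k lm Cr u hDat hCFD hp hq hk0 hk1 hk2 hCr hCrσ hCrint hu0 hut
  by_contra hcon
  obtain ⟨R1, R2, R3, R4, R5⟩ := hRTP (OF Fq F) F p hp0
  have D1 : D 1 = 0 := D_one hD
  -- all units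
  have key : ∀ g : E[X], Lam q (g * PP q d k θ) = g → ∀ γ, ∃ x : Additive (OF Fq F)ˣ,
      D (uv x) = zg g γ * uv x := by
    intro g hg
    have hz : ∀ γ, ∃ (h : F) (c : ClassGroup (OF Fq F)), D h = zg g γ * h ∧ Rt F p h c := by
      intro γ
      obtain ⟨h, h0, hh, I, hI⟩ := hHLG Fq E F w θ p q d lm D Cr (zg g γ) hDat hCFD hp hpq hDd hDint hDmax
        hDp hCrp (hzfix g hg γ) (hzint g γ)
      exact ⟨h, ClassGroup.mk F I, hh, h0, I, hI, rfl⟩
    obtain ⟨κ, hκ⟩ := exists_kappa hRTP p hp0 D hD hker (zg g) hz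
    have hκρ : ∀ (σ : F ≃ₐ[RatFunc Fq] F) γ, (MonoidHom.toAdditive (ρ σ)) (κ γ) = κ (u σ ^ k * γ) := by
      intro σ γ
      obtain ⟨h, c, h1, h2⟩ := hz γ
      rw [hκ γ h c h1 h2]
      have h3 : D (σ h) = zg g (u σ ^ k * γ) * σ h := by
        rw [hDσ, h1, map_mul, hzσ]
      exact (hκ _ _ _ h3 (hρ2 p σ h c h2)).symm
    have hκ0 : κ = 0 := by
      by_contra hne
      exact hcon ⟨u, hua, inferInstance, ρ, hρ1, κ, hne, hκρ⟩
    intro γ
    obtain ⟨h, c, h1, h2⟩ := hz γ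
    have hc : c = 1 := by
      have h3 := hκ γ h c h1 h2
      rw [hκ0] at h3
      exact (Additive.ofMul.injective h3).symm
    rw [hc] at h2
    obtain ⟨ε, x, hx0, hx⟩ := R3 _ h2
    refine ⟨Additive.ofMul ε, ?_⟩
    have hε : uv (Additive.ofMul ε) = algebraMap (OF Fq F) F ε := rfl
    rw [hε]
    have h4 : D h = x ^ p * D (algebraMap (OF Fq F) F ε) := by
      rw [hx, hD, D_pow_p hD p hp0, mul_zero, zero_add]
    rw [h1, hx] at h4
    have h5 : x ^ p ≠ 0 := pow_ne_zero _ hx0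
    apply mul_left_cancel₀ h5
    rw [← h4]
    ring
  have key2 : ∀ i γ, ∃ x : Additive (OF Fq F)ˣ, D (uv x) = zg (f i) γ * uv x := fun i γ => key (f i) (hfix i) γ
  choose μ hμ using key2
  -- the combinations
  have : Fintype (F ≃ₐ[RatFunc Fq] F) := Fintype.ofFinite _
  have hq1 : 1 ≤ q := by omega
  refine hUNB p E (F ≃ₐ[RatFunc Fq] F) (Additive (OF Fq F)ˣ) u (fun σ => aU σ) k (q ^ d - 1) v μ
    ?_ hu0 ?_ ?_ ?_ ?_ ?_ ?_ ?_
  · rw [← Nat.card_eq_fintype_card]
    exact hcard p hp hpq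
  · intro x
    apply uv_inj
    rw [uv_aU]; rfl
  · intro σ τ x
    apply uv_inj
    rw [uv_aU, uv_aU, uv_aU]; rfl
  · intro hdvd
    have h3 : p ∣ q ^ d := dvd_pow hpq (by omega)
    have h4 : p ∣ 1 := by
      have : q ^ d - (q ^ d - 1) = 1 := by omega
      rw [← this]
      exact Nat.dvd_sub h3 hdvd
    exact hp.one_lt.ne' (Nat.dvd_one.mp h4)
  · intro x hx
    have h3 := hv (Additive.toMul x) (fun σ => hx σ)
    apply Additive.toMul.injective
    rw [toMul_nsmul, h3]; rfl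
  · intro i γ γ'
    apply uv_pow hD hp0 hker (z := zg (f i) (γ + γ'))
    · rw [uv_add, map_add]
      exact D_mul_log hD (hμ i γ) (hμ i γ')
    · exact hμ i (γ + γ')
  · intro i σ γ
    obtain ⟨t, ht⟩ := uv_pow hD hp0 hker (z := zg (f i) (u σ ^ k * γ)) (hμ i (u σ ^ k * γ))
      (y := aU σ (μ i γ)) (by
        rw [uv_aU, hDσ, hμ i γ, map_mul, hzσ])
    exact ⟨t, ht⟩
  · intro e₀ e₁ he
    have hne : C e₀ * f 0 + C e₁ * f 1 ≠ 0 := by
      intro h0
      have h3 := Fintype.linearIndependent_iff.mp hlin ![e₀, e₁] (by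
        rw [Fin.sum_univ_two]
        simpa [smul_eq_C_mul] using h0)
      have h30 := h3 0
      have h31 := h3 1
      simp at h30 h31
      rcases he with he | he
      · exact he h30
      · exact he h31
    have hfx : Lam q ((C e₀ * f 0 + C e₁ * f 1) * PP q d k θ) = C e₀ * f 0 + C e₁ * f 1 := by
      rw [add_mul, mul_assoc, mul_assoc, Lam_add hq1, Lam_C hq1, Lam_C hq1, hfix 0, hfix 1]
    obtain ⟨γ, hγ⟩ := hzne _ hfx hne
    refine ⟨γ, ?_⟩
    rintro ⟨t, ht⟩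
    apply hγ
    have h3 : zg (C e₀ * f 0 + C e₁ * f 1) γ = zg (f 0) (e₀ * γ) + zg (f 1) (e₁ * γ) := by
      rw [map_add, AddMonoidHom.add_apply, hzC, hzC]
    rw [h3]
    have h4 := D_mul_log hD (hμ 0 (e₀ * γ)) (hμ 1 (e₁ * γ))
    rw [← uv_add, ht, uv_nsmul, D_pow_p hD p hp0] at h4
    rcases mul_eq_zero.mp h4.symm with h | h
    · exact h
    · exact absurd h (pow_ne_zero _ (uv_ne _))



/-- the conclusion: the `w^k`-component of `W ⊗ C`, `C` the `p`-primary part of the class group, is not zero -/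
def ConclP (p : ℕ) [Fact p.Prime] (Fq E F : Type) [Field Fq] [Fintype Fq] [Field E] [Algebra Fq E]
    [Field F] [Algebra Fq[X] F] [Algebra (RatFunc Fq) F] [IsScalarTower Fq[X] (RatFunc Fq) F]
    (θ : E) (q k : ℕ) (lm : F) : Prop :=
  ∃ _hD : IsDedekindDomain (OF Fq F),
  ∃ ρ : (F ≃ₐ[RatFunc Fq] F) → (CommGroup.primaryComponent (ClassGroup (OF Fq F)) p →*
      CommGroup.primaryComponent (ClassGroup (OF Fq F)) p),
    (∀ σ (I J : (Ideal (OF Fq F))⁰)
      (hI : ClassGroup.mk0 I ∈ CommGroup.primaryComponent (ClassGroup (OF Fq F)) p),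
      (J : Ideal (OF Fq F)) = (I : Ideal (OF Fq F)).map (sO (Fq := Fq) σ) →
        (ρ σ ⟨ClassGroup.mk0 I, hI⟩ : ClassGroup (OF Fq F)) = ClassGroup.mk0 J) ∧
    ∃ x : (WittVector p E) ⊗[ℤ] (Additive (CommGroup.primaryComponent (ClassGroup (OF Fq F)) p)),
      x ≠ 0 ∧
      ∀ (σ : F ≃ₐ[RatFunc Fq] F) (a : Fq[X]), σ lm = cact q a lm →
        LinearMap.lTensor (WittVector p E) (MonoidHom.toAdditive (ρ σ)).toIntLinearMap x =
          (WittVector.teichmuller p (aeval θ a)) ^ k • x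

/-- an endomorphism maps the `p`-primary part to itself -/
noncomputable def prC {G : Type} [CommGroup G] (p : ℕ) (φ : G →* G) :
    CommGroup.primaryComponent G p →* CommGroup.primaryComponent G p :=
  (φ.comp (CommGroup.primaryComponent G p).subtype).codRestrict (CommGroup.primaryComponent G p) (by
    rintro ⟨x, n, hn⟩
    refine ⟨n, ?_⟩
    show φ x ^ p ^ n = 1
    rw [← map_pow, hn, map_one])

theorem concl_of (hCLA : S_CLA) (p : ℕ) [Fact p.Prime] (Fq E F : Type) [Field Fq] [Fintype Fq] [Field E]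
    [Fintype E] [CharP E p] [Algebra Fq E]
    [Field F] [Algebra Fq[X] F] [Algebra (RatFunc Fq) F] [IsScalarTower Fq[X] (RatFunc Fq) F]
    (θ : E) (q k : ℕ) (lm : F) (h : ConclK Fq E F θ q k lm) : ConclP p Fq E F θ q k lm := by
  obtain ⟨u, hu, hD, ρ, hρ, κ, hκ, hκρ⟩ := h
  refine ⟨hD, fun σ => prC p (ρ σ), ?_, ?_⟩
  · intro σ I J hI hJ
    exact hρ σ I J hJ
  · have hmem : ∀ γ, Additive.toMul (κ γ) ∈ CommGroup.primaryComponent (ClassGroup (OF Fq F)) p := by
      intro γ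
      refine ⟨1, ?_⟩
      rw [pow_one]
      have h1 : p • κ γ = 0 := by
        rw [← map_nsmul, nsmul_eq_mul, CharP.cast_eq_zero, zero_mul, map_zero]
      exact h1
    let κ' : E →+ Additive (CommGroup.primaryComponent (ClassGroup (OF Fq F)) p) :=
      AddMonoidHom.mk' (fun γ => Additive.ofMul ⟨Additive.toMul (κ γ), hmem γ⟩) (by
        intro a b
        apply Additive.toMul.injective
        apply Subtype.ext
        show Additive.toMul (κ (a + b)) = Additive.toMul (κ a) * Additive.toMul (κ b)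
        rw [map_add]
        rfl)
    obtain ⟨x, hx0, hx⟩ := hCLA p E (F ≃ₐ[RatFunc Fq] F)
      (Additive (CommGroup.primaryComponent (ClassGroup (OF Fq F)) p)) u
      (fun σ => MonoidHom.toAdditive (prC p (ρ σ))) k κ' (by
        intro σ γ
        apply Additive.toMul.injective
        apply Subtype.ext
        exact hκρ σ γ) (by
        intro h0
        apply hκ
        ext γ
        have h1 : κ' γ = 0 := by rw [h0]; rfl
        have h2 : Additive.toMul (κ' γ) = 1 := by rw [h1]; rfl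
        have h3 : Additive.toMul (κ γ) = 1 := congrArg Subtype.val h2
        exact h3)
    refine ⟨x, hx0, ?_⟩
    intro σ a ha
    rw [← hu σ a ha]
    exact hx σ

end Run7.h400.GK
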