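import Pool.Agent.Run7.h400.GK.DefsK

/-!
# Project GK, part C over the field `E((π))`: statements
-/

set_option autoImplicit false

namespace Run7.h400.GK

open Polynomial Finset

/-- **HTH.** Functional equation. Proof. `H = Hth q t` satisfies `H_0 = 1`, `H_(q j) = H_j`, `H_(q j + 1) = - t H_j` and
`H_m = 0` if `m % q ≥ 2` (digits), i.e. `H(X) = (1 - t X) H(X^q)`. Multiply over `s`; the reversed polynomial of
`∏ (X - t)` is `∏ (1 - t X)`; compare coefficients (induction on the multiset is convenient for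
`h = P^rev * expand q h`). -/
def S_HTH : Prop := ∀ (E : Type) [Field E] (q : ℕ) (s : Multiset E), 2 ≤ q →
  FEq q (Multiset.card s) ((s.map fun t => X - C t).prod) ((s.map fun t => Hth q t).prod)

/-- **SBR.** `sb q` is the ring homomorphism `X ↦ T⁻¹ = -π^(q-1)`. Proof. Compose `PowerSeries.rescale (-1)`,
`PowerSeries.expand (q-1)` (`Mathlib/RingTheory/PowerSeries/Expand.lean`) and `HahnSeries.ofPowerSeries ℤ E`. -/
def S_SBR : Prop := ∀ (E : Type) [Field E] (q : ℕ), 2 ≤ q →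
  ∃ f : PowerSeries E →+* LaurentSeries E, (∀ h, f h = sb q h) ∧ f PowerSeries.X = (TT E q)⁻¹ ∧
    (∀ e : E, f (PowerSeries.C e) = algebraMap E (LaurentSeries E) e) ∧ Function.Injective f ∧
    ∀ h (j : ℕ), (f h).coeff (((q : ℤ) - 1) * j) = (-1) ^ j * PowerSeries.coeff j h

/-- **GRL.** Hypotheses `S_HTH → S_SBR → S_GRL`. Proof. `q` is a power of the characteristic. `H_t^q` is `H_(t^q)(X^q)`
(Frobenius on coefficients: the coefficients of `H_(t^q)` are the `q`-th powers of those of `H_t`), and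
`H_(t^q)(X) = (1 - t^q X) H_(t^q)(X^q)`, so `H_t^q (1 - t^q X) = H_(t^q)`. Apply `sb`: with `u = T⁻¹`
`gg q δ t ^ q = -δ^(-q) π^(-q) (1 - t^q u) / sb H_(t^q)` and `π^(-q) = -π⁻¹ T`. -/
def S_GRL : Prop := ∀ (Fq E : Type) [Field Fq] [Fintype Fq] [Field E] [Algebra Fq E] (q : ℕ)
  (δ t : E), q = Fintype.card Fq → δ ≠ 0 →
  gg q δ t ≠ 0 ∧ gg q δ t ^ q =
    (algebraMap E (LaurentSeries E) (t ^ q) - TT E q) * gg q (δ ^ q) (t ^ q)

/-- **EXP.** Hypothesis `S_SBR → S_EXP`. Proof. With `u = T⁻¹`, `c(T) = T^j sb(∑ c_i X^(j-i))`, `c'(T) = T^(j-1)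
sb(∑ i c_i X^(j-i))`, `j = deg c`; the definition of `ps`. -/
def S_EXP : Prop := ∀ (Fq E : Type) [Field Fq] [Field E] [Algebra Fq E] (q : ℕ) (c : Fq[X]),
  2 ≤ q → c.Monic → aeval (TT E q) (derivative c) / aeval (TT E q) c =
    sb q (PowerSeries.X * PowerSeries.mk fun m => algebraMap Fq E (ps m c))

/-- **FRB.** Finite fields: the roots of `w` in `E` are the `θ^(q^i)`. Standard (`w = minpoly Fq θ`, `E = Fq(θ)` as
`card E = q^d`). -/
def S_FRB : Prop := ∀ (Fq E : Type) [Field Fq] [Fintype Fq] [Field E] [Fintype E] [Algebra Fq E]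
  (w : Fq[X]) (θ : E) (q d : ℕ), Dat Fq E w θ q d →
  w.map (algebraMap Fq E) = ∏ i ∈ range d, (X - C (θ ^ (q ^ i))) ∧
  (∀ i < d, ∀ j < d, θ ^ (q ^ i) = θ ^ (q ^ j) → i = j) ∧ (∀ i, θ ^ (q ^ (i + d)) = θ ^ (q ^ i)) ∧
  (∀ i, aeval (θ ^ (q ^ i)) (derivative w) ≠ 0) ∧
  (∀ i, aeval (θ ^ (q ^ i)) (derivative w) = (aeval θ (derivative w)) ^ (q ^ i)) ∧
  (∀ x : E, ∃! a : Fq[X], a.degree < d ∧ aeval θ a = x)

/-- **DIG.** Digits in base `q`. `k ≡ sum of digits mod (q-1)`; the digit sum is `< d (q-1)` as `k < q^d - 1`. -/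
def S_DIG : Prop := ∀ q d k : ℕ, 2 ≤ q → 1 ≤ d → 0 < k → k < q ^ d - 1 → (q - 1) ∣ k →
  (∑ i ∈ range d, dg q k i * q ^ i = k) ∧ (∀ i, d ≤ i → dg q k i = 0) ∧
  (q - 1) * (d - nk q d k) = ∑ i ∈ range d, dg q k i ∧ 1 ≤ nk q d k ∧ nk q d k ≤ d ∧
  ∀ (E : Type) [Field E] (θ : E), Multiset.card (msk q d k θ) = nk q d k * (q - 1) ∧
    PP q d k θ = ((msk q d k θ).map fun t => X - C t).prod

/-- **WTK.** `∏_i c(θ^(q^i))^(q-1-k_i) = c(θ)^(∑ q^i (q-1-k_i))`, `∑ q^i (q-1-k_i) = q^d - 1 - k`. Hypothesis `S_DIG → S_WTK`. -/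
def S_WTK : Prop := ∀ (Fq E : Type) [Field Fq] [Fintype Fq] [Field E] [Fintype E] [Algebra Fq E]
  (w : Fq[X]) (θ : E) (q d k : ℕ), Dat Fq E w θ q d → 0 < k → k < q ^ d - 1 → (q - 1) ∣ k →
  ∀ c : Fq[X], ((msk q d k θ).map fun t => aeval t c).prod = aeval θ c ^ (q ^ d - 1 - k)

/-- the finite level Gauss sums `g_i^(j) = (-1)^j / (δ_i ∏_(l ≤ j) (T^(q^l) - θ_i))` -/
noncomputable def gj {Fq E : Type} [Field Fq] [Field E] [Algebra Fq E] (q : ℕ) (w : Fq[X]) (θ : E)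
    (j i : ℕ) : LaurentSeries E :=
  (-1) ^ j / (algebraMap E (LaurentSeries E) (aeval (θ ^ (q ^ i)) (derivative w)) *
    ∏ l ∈ range (j + 1), (TT E q ^ (q ^ l) - algebraMap E (LaurentSeries E) (θ ^ (q ^ i))))

/-- **ZJF.** Hypothesis `S_FRB → S_ZJF`. Proof. Let `Z_j(a) = ∏_(deg b < j) (a + w b)` and `E_j(a) = lam q d (gj … j) a(θ)
= ∑_i a(θ_i) g_i^(j)`. `j = 0`: `a(T)/w(T) = ∑ a(θ_i)/(w'(θ_i) (T - θ_i))` (Lagrange interpolation). Recursion for `E`: as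
`a(θ_i)^q = a(θ_(i+1))`, `δ_i^q = δ_(i+1)`, one gets `E_j(a) = (E_(j-1)(a)^q - E_(j-1)(a)) / (T^(q^j) - T)`
(`(T^(q^j) - T)` times the product over `l ≤ j` is the difference of the products over `1 ≤ l ≤ j` and `0 ≤ l ≤ j-1`).
Recursion for `Z`: `Z_j(a) = ∏_(c ∈ Fq) Z_(j-1)(a + c w X^(j-1))`, `Z_(j-1)` is additive (induction), so with
`y = Z_(j-1)(w X^(j-1)) = w^(q^(j-1)) D_(j-1)` (`∏_(deg b < j-1) (X^(j-1) + b) = D_(j-1)`, the product of the monic polynomials of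
degree `j - 1`, the special case of the same recursion: `e_j(z) = e_(j-1)(z)^q - D_(j-1)^(q-1) e_(j-1)(z)`,
`D_j = e_j(X^j)`, `e_j(X z) = X e_j(z) + (X^(q^j) - X) e_(j-1)(z)^q`): `Z_j(a) = Z_(j-1)(a)^q - y^(q-1) Z_(j-1)(a)`, and
`D_j = (T^(q^j) - T) D_(j-1)^q`. (Any other proof of this formula of Carlitz is fine; the constant `Dm q T j` may be
found at the end from one value.) -/
def S_ZJF : Prop := ∀ (Fq E : Type) [Field Fq] [Fintype Fq] [Field E] [Fintype E] [Algebra Fq E]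
  (w : Fq[X]) (θ : E) (q d j : ℕ) (a : Fq[X]), Dat Fq E w θ q d → a.degree < d →
  aeval (TT E q) (∏ b : Fin j → Fq, (a + w * ∑ i : Fin j, C (b i) * X ^ (i : ℕ))) =
    aeval (TT E q) w ^ (q ^ j) * Dm q (TT E q) j * lam q d (gj q w θ j) (aeval θ a)

/-- **IN1.** Hypotheses `S_FRB → S_ZJF → S_IN1`. Proof. Logarithmic derivative of ZJF with respect to `T` (for nonzero `a`):
`∑_(deg b < j) (a + w b)'/(a + w b) = κ_j - nu(a)/lam(a)` with the sequence `gj … j`, where `κ_j` (from `w^(q^j)` and `D_j`)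
does not depend on `a` (`d/dT (T^(q^l) - θ_i) = 0` for `l ≥ 1`). To differentiate one can use the identity of ZJF in
`RatFunc E` or cleared of denominators in `E[X]` (`TT` is transcendental over `E`). Multiply by `a(θ)^(-k)` and sum over the
nonzero `a` of degree `< d` (FRB: these are the nonzero elements of `E`): `∑_(a ≠ 0) a^(-k) = 0`, so
`Γ^(j) = - ∑_(c, deg c < d + j, w ∤ c) c(θ)^(-k) c'/c` over all (not only monic) `c`; `c = ε c₊` with `ε ∈ Fq^*`,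
`ε^(-k) = 1`, gives the factor `q - 1 = -1`; `c(θ)^(-k) = c(θ)^(q^d-1-k)`, which is `0` if `w ∣ c`. -/
def S_IN1 : Prop := ∀ (Fq E : Type) [Field Fq] [Fintype Fq] [Field E] [Fintype E] [Algebra Fq E]
  (w : Fq[X]) (θ : E) (q d k j : ℕ), Dat Fq E w θ q d → 0 < k → k < q ^ d - 1 → (q - 1) ∣ k →
  Gam q d k θ (TT E q) (gj q w θ j) = ∑ J ∈ range (d + j), ∑ c : Fin J → Fq,
      algebraMap E (LaurentSeries E) (aeval θ (mp c) ^ (q ^ d - 1 - k)) *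
        (aeval (TT E q) (derivative (mp c)) / aeval (TT E q) (mp c))

/-- **IN2.** Hypotheses `S_SBR → S_FRB → S_HTH → S_GRL → S_IN2`. Proof. `H_t = ∏_(l ≤ j) (1 - t X^(q^l)) * H_t(X^(q^(j+1)))`, so with
`c_j = π^(-q^(j+1))` one has `c_j g_i^(j) = g_i * H_(θ_i)(u^(q^(j+1))) = g_i (1 + ε_i)`, `ε_i` of order `≥ q^(j+1) (q - 1)` in `π`
(`T^(q^l) - θ_i = T^(q^l) (1 - θ_i u^(q^l))`, `∏_(l ≤ j) (-T)^(q^l) = π^(-(q^(j+1)-1))`, signs: `(-1)^q = -1` in `E`).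
`Gam` is homogeneous of degree `0` in `g`, so replace `gj` by `c_j gj`. `lam q d g a ≠ 0` for `a ≠ 0` (GRL relations:
`lam(a)` is the value of an injective additive map, `lam(θ a) = T lam(a) + lam(a)^q`; if `lam(a) = 0` then all
`lam(b a) = 0`, `b ∈ Fq[θ] = E`, and then `g_0 = - ∑_z z^(-1) lam(z) = 0`). The quotients `nu/lam` are continuous. -/
def S_IN2 : Prop := ∀ (Fq E : Type) [Field Fq] [Fintype Fq] [Field E] [Fintype E] [Algebra Fq E]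
  (w : Fq[X]) (θ : E) (q d k : ℕ), Dat Fq E w θ q d → 
  ∀ M : ℤ, ∃ j₀ : ℕ, ∀ j, j₀ ≤ j → ∀ i < M,
    (Gam q d k θ (TT E q) (gk q w θ) - Gam q d k θ (TT E q) (gj q w θ j)).coeff i = 0

/-- **INF.** `Γ = ∑_c W(c) c'(T)/c(T)`. From `S_IN1 → S_IN2 → S_INF`: take `J = d + j`. -/
def S_INF : Prop := ∀ (Fq E : Type) [Field Fq] [Fintype Fq] [Field E] [Fintype E] [Algebra Fq E]
  (w : Fq[X]) (θ : E) (q d k : ℕ), Dat Fq E w θ q d → 0 < k → k < q ^ d - 1 → (q - 1) ∣ k →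
  ∀ M : ℤ, ∃ J₀ : ℕ, ∀ J, J₀ ≤ J → ∀ i < M,
    (Gam q d k θ (TT E q) (gk q w θ) - ∑ j ∈ range J, ∑ c : Fin j → Fq,
      algebraMap E (LaurentSeries E) (aeval θ (mp c) ^ (q ^ d - 1 - k)) *
        (aeval (TT E q) (derivative (mp c)) / aeval (TT E q) (mp c))).coeff i = 0

/-- **STR.** Hypotheses `S_GMF → S_HTH → S_SBR → S_EXP → S_FRB → S_DIG → S_WTK → S_INF → S_STR`. Proof. `s = msk q d k θ`, `n = nk q d k`,
`P = PP q d k θ`, `h = ∏_(t ∈ s) Hth q t`, `u = T⁻¹`. By INF, EXP (`W(c) = c(θ)^(q^d-1-k)` is WTK) and GMF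
`Γ = ∑_m G_m u^(m+1)`, `G_m = -κ(X^m F)`, `F = fst q n P`: compare the coefficients at `π^i` (those of
`sb (X * ∑ G_m X^m)` are zero unless `(q-1) ∣ i`; for given `i` take `J` large). `κ(X^m F)` is the coefficient at `m` of
`(∑_(j<n) F_j X^(n-1-j)) h`, so `Γ = -sb(X (∑ F_j X^(n-1-j)) h) = -T^(-n) F(T) sb h`. Finally `sb (Hth q θ_i) =
-δ_i⁻¹ π⁻¹ g_i⁻¹` (definition of `gg`), so `sb h = (-1)^N π^(-N) ∏ (δ_i g_i)^(-μ_i)`, `N = n (q-1)`, `(-1)^N = 1` in `E`,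
`π^(-N) = (-T)^n`. -/
def S_STR : Prop := ∀ (Fq E : Type) [Field Fq] [Fintype Fq] [Field E] [Fintype E] [Algebra Fq E]
  (w : Fq[X]) (θ : E) (q d k : ℕ), Dat Fq E w θ q d → 0 < k → k < q ^ d - 1 → (q - 1) ∣ k →
  Gam q d k θ (TT E q) (gk q w θ) =
    algebraMap E (LaurentSeries E) (-((-1) ^ (nk q d k) *
      ∏ i ∈ range d, ((aeval (θ ^ (q ^ i)) (derivative w))⁻¹) ^ (q - 1 - dg q k i))) *
    aeval (TT E q) (fst q (nk q d k) (PP q d k θ)) *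
    ∏ i ∈ range d, ((gk q w θ i)⁻¹) ^ (q - 1 - dg q k i)

/-- **LOC.** Evaluation at `T = θ`. Proof. Let `θ_i = θ^(q^i)`. By `Ideal.image_subset_nonunits_valuationSubring` there is a
valuation subring `V` of `K` which contains the image of `E[T]` with `T - θ` in its maximal ideal (`T` is transcendental, so
`(T - θ)` is a proper ideal of `E[T] ⊆ K`). Let `v` be the valuation; `v(e) = 1` for `e ∈ E`, `e ≠ 0`, `v(T - θ_i) = 1` for
`0 < i < d` (`θ_i ≠ θ`). The relations give `g_m = g_0^(q^m) / ∏_(r=1)^m (θ_r - T)^(q^(m-r))` for `m < d` and (with `g d = g 0`)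
`g_0^(q^d - 1) = ∏_(r=1)^d (θ_r - T)^(q^(d-r))`, so `v(g_0)^(Q-1) = v(T - θ) < 1`, `Q = q^d`. Let `𝔞 = {x : v x ≤ v (T - θ)}`, an
ideal of `V`. Mod `𝔞`: `T ≡ θ`, `∏_(r=1)^m (θ_r - T)^(q^(m-r)) ≡ D_m(θ)` (`Dm q θ m = ∏_(j<m) (θ_m - θ_j)
= ∏_(r=1)^m (θ_r - θ)^(q^(m-r))`), so `λ(a) / (a g_0) ≡ ε(a g_0)`, `ε(z) = ∑_(m<d) z^(q^m-1)/D_m(θ)`, and
`a g_0 / λ(a) ≡ ∑_(j < Q-1) β_j (a g_0)^j`, `β_j` the coefficients of `(ez q d θ)⁻¹` (as `g_0^(Q-1) ∈ 𝔞`). In `(T - θ) Γ` the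
terms of `nu` with `i ≥ 1` are in `𝔞`, so `(T - θ) Γ ≡ ∑_(a ≠ 0) a^(-k) ∑_j β_j a^j g_0^j = - β_k g_0^k`. On the other side
`∏_(i<d) g_i^(q-1) = ∏_(i<d) (θ_i - T)`, so `(T - θ) ∏ g_i^(-(q-1-k_i)) = - ∏ g_i^(k_i) / ∏_(0<i<d) (θ_i - T)
≡ - g_0^k / (∏ D_i(θ)^(k_i) ∏_(0<i<d) (θ_i - θ))`. As `v(g_0^k) > v(T - θ)` and `v = 1` on `E^*`, the two coefficients
of `g_0^k` are equal. -/
def S_LOC : Prop := ∀ (Fq E K : Type) [Field Fq] [Fintype Fq] [Field E] [Fintype E] [Algebra Fq E]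
  [Field K] [Algebra E K] (w : Fq[X]) (θ : E) (q d k : ℕ) (T : K) (g : ℕ → K) (F : E[X]) (c : E),
  Dat Fq E w θ q d → 0 < k → k < q ^ d - 1 → (q - 1) ∣ k → Transcendental E T →
  (∀ i, g i ≠ 0) → (∀ i, g i ^ q = (algebraMap E K (θ ^ (q ^ (i + 1))) - T) * g (i + 1)) →
  g d = g 0 →
  Gam q d k θ T g = algebraMap E K c * aeval T F * ∏ i ∈ range d, ((g i)⁻¹) ^ (q - 1 - dg q k i) →
  PowerSeries.coeff k (ez q d θ)⁻¹ * (∏ i ∈ range d, Dm q θ i ^ dg q k i) *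
    (∏ i ∈ Ico 1 d, (θ ^ (q ^ i) - θ)) = c * F.eval θ

/-- **BER.** Reduction of Bernoulli-Carlitz numbers. Proof. For `m < d` `D_m` is prime to `w` (`D_m(θ) ≠ 0`, as `θ` has `d`
different conjugates), so the power series `∑ z^(q^m-1)/D_m` truncated after `z^k`, `k < q^d - 1`, has coefficients in the
localisation of `Fq[T]` at `(w)`, which maps to `E` by `T ↦ θ`; the inverse too (constant coefficient 1). The coefficient
`β_k ∏ D_i^(k_i)` maps to the left side and is `w a / b`, `b(θ) ≠ 0`. (Digits `k_i = 0` for `i ≥ d`.) Instead of the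
localisation one can use: the set of `x : RatFunc Fq` which are `a/b` with `b(θ) ≠ 0` and the value `a(θ)/b(θ)`. -/
def S_BER : Prop := ∀ (Fq E : Type) [Field Fq] [Fintype Fq] [Field E] [Fintype E] [Algebra Fq E]
  (w : Fq[X]) (θ : E) (q d k : ℕ), Dat Fq E w θ q d → 0 < k → k < q ^ d - 1 →
  DvdBC q k w →
  PowerSeries.coeff k (ez q d θ)⁻¹ * (∏ i ∈ range d, Dm q θ i ^ dg q k i) = 0

/-- **PC.** Hypotheses `S_STR → S_LOC → S_BER → S_GMF → S_FRB → S_DIG → S_GRL → S_HTH → S_PC`. Proof. `F = fst q n P`, `P = PP q d k θ`.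
For `i < d` let `θ' = θ^(q^i)`, `g'_j = g_(i+j)`, `k' = ∑_j k_((i+j) mod d) q^j`; then `0 < k' < q^d - 1`, `q^i k' ≡ k`,
`(q-1) ∣ k'`. The substitution `a = b^(q^i)` shows `Gam q d k' θ' T g' = Gam q d k θ T g`, so STR gives the hypothesis of LOC
for `θ', k', g'` (`T = TT E q` is transcendental over `E`: look at the orders; relations by GRL and FRB), and LOC, BER give
`c F(θ') = 0`, `c ≠ 0`. So `F` has `d` zeros; its degree is `< n ≤ d`, so `F = 0`; now GMF. -/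
def S_PC : Prop := ∀ (Fq E : Type) [Field Fq] [Fintype Fq] [Field E] [Fintype E] [Algebra Fq E]
  (w : Fq[X]) (θ : E) (q d k : ℕ), Dat Fq E w θ q d → 0 < k → k < q ^ d - 1 → (q - 1) ∣ k →
  (∀ k', 0 < k' → k' < q ^ d - 1 → (∃ m, q ^ m * k' ≡ k [MOD q ^ d - 1]) → DvdBC q k' w) →
  ∃ f : Fin 2 → E[X], LinearIndependent E f ∧ ∀ i, Lam q (f i * PP q d k θ) = f i

end Run7.h400.GK
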