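import Pool.Agent.Run7.h400.GK.PartC
import Pool.Agent.Run7.h400.GK.PAk
import Pool.Agent.Run7.h11.GK.CAL
import Pool.Agent.Run7.h11.GK.CAR
import Pool.Agent.Run7.h11.GK.CAT
import Pool.Agent.Run7.h13.GK.HLG
import Pool.Agent.Run7.h160.GK.JCL
import Pool.Agent.Run7.h160.GK.RTP
import Pool.Agent.Run7.h648.GK.TGA
import Pool.Agent.Run7.h688.GK.GS1
import Pool.Agent.Run7.h688.GK.GS3
import Pool.Agent.Run7.h688.GK.CLA
import Pool.Agent.Run7.h697.GK.TOR
import Pool.Agent.Run7.h697.GK.GAL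
import Pool.Agent.Run7.h771.GK.DED
import Pool.Agent.Run7.h781.GK.OFA
import Pool.Agent.Run7.h834.GK.GS2
import Pool.Agent.Run7.h834.GK.ZGA
import Pool.Agent.Run7.h929.GK.RHO
import Pool.Agent.Run7.h929.GK.VAL
import Pool.Agent.Run7.h929.GK.EMB
import Pool.Agent.Run7.h99.GK.DER
import Pool.Agent.Run7.h99.GK.UNB

/-!
# Project GK: assembly of part A, and the final theorem
-/

set_option autoImplicit false

namespace Run7.h400.GK

open Polynomial Finset TensorProduct nonZeroDivisors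

theorem hTOR : S_TOR := Run7.h697.GK.t_TOR Run7.h11.GK.t_CAR Run7.h11.GK.t_CAL Run7.h592.GK.t_FRB

theorem hGAL : S_GAL :=
  Run7.h697.GK.t_GAL Run7.h11.GK.t_CAR Run7.h11.GK.t_CAL Run7.h592.GK.t_FRB hTOR

theorem hOFA : S_OFA :=
  Run7.h781.GK.t_OFA Run7.h11.GK.t_CAR Run7.h11.GK.t_CAL Run7.h592.GK.t_FRB hTOR hGAL

theorem hDER : S_DER :=
  Run7.h99.GK.t_DER Run7.h11.GK.t_CAR Run7.h11.GK.t_CAL Run7.h592.GK.t_FRB hTOR hGAL hOFA

theorem hCAT : S_CAT := Run7.h11.GK.t_CAT Run7.h11.GK.t_CAR hOFA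

theorem hGS1 : S_GS1 :=
  Run7.h688.GK.t_GS1 Run7.h11.GK.t_CAR Run7.h11.GK.t_CAL Run7.h592.GK.t_FRB hTOR

theorem hGS3 : S_GS3 := Run7.h688.GK.t_GS3 hGS1 Run7.h194.GK.t_DIG

theorem hHLG : S_HLG := Run7.h13.GK.t_HLG hGAL Run7.h771.GK.t_DED Run7.h160.GK.t_JCL

theorem hEMB : S_EMB :=
  Pool.Agent.Run7.h929.GK.t_EMB Run7.h11.GK.t_CAR Run7.h11.GK.t_CAL Run7.h592.GK.t_FRB hTOR hGAL
    Run7.h194.GK.t_HTH Run7.h227.GK.t_SBR hGRL

theorem hZGA : S_ZGA :=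
  Run7.h834.GK.ZGA.t_ZGA
    (Run7.h648.GK.t_TGA hGS1 Run7.h834.GK.GS2.t_GS2 hGS3 hOFA hEMB Run7.h592.GK.t_FRB
      Run7.h194.GK.t_DIG hTOR hGAL hGRL Run7.h194.GK.t_HTH Run7.h227.GK.t_SBR)

/-- part A, without hypotheses -/
theorem hPAk : S_PAk :=
  t_PAk hGAL hDER hCAT (Pool.Agent.Run7.h929.GK.t_VAL hGAL hEMB) hZGA hHLG
    Run7.h160.GK.t_RTP Pool.Agent.Run7.h929.GK.t_RHO Run7.h99.GK.t_UNB

/-- The final theorem (Gekeler's question, positive answer), for the `p`-primary part of the class group. -/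
theorem main (p : ℕ) [Fact p.Prime] (Fq F : Type) [Field Fq] [Fintype Fq] [CharP Fq p]
    [Field F] [Algebra Fq[X] F] [Algebra (RatFunc Fq) F] [IsScalarTower Fq[X] (RatFunc Fq) F]
    (w : Fq[X]) [Fact (Irreducible w)] (q d k : ℕ) (lm : F) (hq : q = Fintype.card Fq)
    (hw : w.Monic) (hd : w.natDegree = d) (hlm : lm ≠ 0) (htor : cact q w lm = 0)
    (hgen : IntermediateField.adjoin (RatFunc Fq) {lm} = ⊤)
    (hk0 : 0 < k) (hk1 : k < q ^ d - 1) (hk2 : (q - 1) ∣ k)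
    (hB : ∀ k', 0 < k' → k' < q ^ d - 1 → (∃ m, k' ≡ p ^ m * k [MOD q ^ d - 1]) → DvdBC q k' w) :
    ConclP p Fq (AdjoinRoot w) F (AdjoinRoot.root w) q k lm := by
  have hirr : Irreducible w := Fact.out
  have hdpos : 1 ≤ d := by
    rw [← hd]
    exact hirr.natDegree_pos
  haveI : Module.Finite Fq (AdjoinRoot w) := (AdjoinRoot.powerBasis hirr.ne_zero).finite
  haveI : Finite (AdjoinRoot w) := Module.finite_of_finite Fq
  letI : Fintype (AdjoinRoot w) := Fintype.ofFinite _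
  haveI : CharP (AdjoinRoot w) p := charP_of_injective_algebraMap
    (algebraMap Fq (AdjoinRoot w)).injective p
  have hcard : Fintype.card (AdjoinRoot w) = q ^ d := by
    rw [Module.card_eq_pow_finrank (K := Fq) (V := AdjoinRoot w), ← hq,
      (AdjoinRoot.powerBasis hirr.ne_zero).finrank, AdjoinRoot.powerBasis_dim, hd]
  have hDat : Dat Fq (AdjoinRoot w) w (AdjoinRoot.root w) q d :=
    { hq := hq
      hd := hcard
      hd1 := hdpos
      irr := hirr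
      monic := hw
      deg := hd
      root := by
        rw [AdjoinRoot.aeval_eq, AdjoinRoot.mk_self] }
  have hCFD : CFD Fq F w q lm :=
    { hq := hq
      irr := hirr
      monic := hw
      ne := hlm
      tor := htor
      gen := hgen }
  -- `q` is a power of `p`
  obtain ⟨f₀, hf₀⟩ : ∃ f₀ : ℕ, q = p ^ f₀ := by
    obtain ⟨n, _, hn⟩ := FiniteField.card Fq p
    exact ⟨n, by rw [hq, hn]⟩
  have hqd : q ^ d ≡ 1 [MOD q ^ d - 1] := by
    have h1 : 1 ≤ q ^ d := Nat.one_le_pow _ _ (by rw [hq]; exact Fintype.card_pos)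
    exact ((Nat.modEq_iff_dvd' h1).2 dvd_rfl).symm
  obtain ⟨f, hf, hff⟩ := hPC Fq (AdjoinRoot w) w (AdjoinRoot.root w) q d k hDat hk0 hk1 hk2 (by
    intro k' h0 h1 h2
    obtain ⟨m, hm⟩ := h2
    refine hB k' h0 h1 ⟨f₀ * (d * m - m), ?_⟩
    -- `q^(dm - m) * q^m = q^(dm) ≡ 1`
    have hdm : m ≤ d * m := Nat.le_mul_of_pos_left m hdpos
    have h3 : q ^ (d * m) ≡ 1 [MOD q ^ d - 1] := by
      have := hqd.pow m
      rwa [one_pow, ← pow_mul] at this
    have h4 : q ^ (d * m - m) * (q ^ m * k') ≡ q ^ (d * m - m) * k [MOD q ^ d - 1] :=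
      hm.mul_left _
    rw [← mul_assoc, ← pow_add, Nat.sub_add_cancel hdm] at h4
    have h5 : q ^ (d * m) * k' ≡ k' [MOD q ^ d - 1] := by
      have := h3.mul_right k'
      rwa [one_mul] at this
    have h6 : k' ≡ q ^ (d * m - m) * k [MOD q ^ d - 1] := h5.symm.trans h4
    rw [pow_mul, ← hf₀]
    exact h6)
  exact concl_of Run7.h688.GK.t_CLA p Fq (AdjoinRoot w) F (AdjoinRoot.root w) q k lm
    (hPAk p Fq (AdjoinRoot w) F w (AdjoinRoot.root w) f₀ q d k lm f hDat hCFD hf₀ hk0 hk1 hk2 hf hff)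

end Run7.h400.GK
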