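import Pool.Agent.Run7.h400.GK.Defs

/-!
# Project GK, part C: statements
-/

set_option autoImplicit false

namespace Run7.h400.GK

open Polynomial Finset

/-- **POW.** Powers of `Ψ`. Proof. Induction on `r`. `deg (X^(l+m) P) ≤ R - 1 + m + n (q-1)`, so `Λ_q (X^(j+m) P)`
has degree `< R` (if `q i + q - 1 ≤ R - 1 + m + n (q - 1)` then `i < R`, as `n + m ≤ R`), similarly
`Λ_(q^(r+1)) (X^(j+m) P_(r+1))` has degree `< R` (`deg P_(r+1) ≤ n (q^(r+1) - 1)`). So the entry of `Mat * (Mat^r * MatM)` is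
`∑_(l < R) [X^l P]_(q i + q - 1) [X^(j+m) P_(r+1)]_(q^(r+1) l + q^(r+1) - 1)`, the sum may be extended to all `l`; it is the
coefficient at `i` of `Λ_q (P Λ_(q^(r+1)) (X^(j+m) P_(r+1))) = Λ_q Λ_(q^(r+1)) (P(X^(q^(r+1))) X^(j+m) P_(r+1))`, and
`Λ_q Λ_Q = Λ_(qQ)`, `Λ_Q (g(X^Q) h) = g Λ_Q h`, `P_(r+2) = P_(r+1) P(X^(q^(r+1)))`. -/
def S_POW : Prop := ∀ (E : Type) [CommRing E] (q n m R : ℕ) (P : E[X]), 2 ≤ q → 1 ≤ n →
  P.natDegree ≤ n * (q - 1) → n + m ≤ R → ∀ (r : ℕ) (i j : Fin R),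
  (MatP q P R ^ r * MatM q P R m) i j =
    (X ^ ((j : ℕ) + m) * Pr q P (r + 1)).coeff (q ^ (r + 1) * i + q ^ (r + 1) - 1)

/-- **EUL.** Logarithmic derivative of the Euler product. Proof. `W(c) = wt φ c` is completely multiplicative. For `c`
monic of degree `N` and a root `ρ` of `c` of multiplicity `e₀`, `e₀` is the multiplicity of `v = minpoly ρ` in `c` (`v` is
separable, `Fq` is perfect). So `ad ψ c = ∑_ρ ∑_(e ≥ 1, v_ρ^e ∣ c) ψ(ρ)`, and the left side is the sum over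
`(ρ, e, b)`, `b` monic, `e deg v_ρ + deg b = N`, of `ψ(ρ) W(v_ρ)^e W(b)`. `ρ` lies in the field with `q^(r+1)` elements iff
`δ = deg v_ρ` divides `r + 1`; put `r + 1 = e δ`. The roots of `v_ρ` are `ρ^(q^l)`, `l < δ`, so
`W(v_ρ)^e = ∏_(l < r+1) φ(ρ^(q^l))`. (An alternative: first prove it for power series, `∑_c X^deg c W(c)`.) -/
def S_EUL : Prop := ∀ (Fq Kb R : Type) [Field Fq] [Fintype Fq] [Field Kb] [Algebra Fq Kb]
  [IsAlgClosed Kb] [CommRing R] (φ ψ : Kb → R) (N : ℕ),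
  ∑ c : Fin N → Fq, ad ψ (mp c) * wt φ (mp c) =
    ∑ r ∈ range N, (∑ b : Fin (N - 1 - r) → Fq, wt φ (mp b)) *
      ∑ ρ ∈ fr Kb (Fintype.card Fq) (r + 1), ψ ρ *
        ∏ l ∈ range (r + 1), φ (ρ ^ (Fintype.card Fq ^ l))

/-- **TR1.** Proof. `∑_(ρ ∈ 𝔽_(q^r)) ρ^e = -1` if `e > 0` and `(q^r - 1) ∣ e`, and `0` otherwise (`0^0 = 1`, `q^r = 0` in `Kb`;
compare `FiniteField.sum_pow_lt_card_sub_one`, `FiniteField.sum_pow_units`; the set `fr` is the image of a field with `q^r`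
elements, or argue with a primitive root of unity). Expand `X^m P_r = ∑ c_e X^e`, `deg (X^m P_r) ≤ m + n (q^r - 1) ≤
(q^r - 1) R`. -/
def S_TR1 : Prop := ∀ (Fq Kb : Type) [Field Fq] [Fintype Fq] [Field Kb] [Algebra Fq Kb]
  [IsAlgClosed Kb] (q n m R r : ℕ) (P : Kb[X]), q = Fintype.card Fq → 1 ≤ n →
  P.natDegree ≤ n * (q - 1) → n + m ≤ R → 1 ≤ r →
  ∑ ρ ∈ fr Kb q r, ρ ^ m * (Pr q P r).eval ρ =
    - ∑ i ∈ range R, (X ^ m * Pr q P r).coeff ((q ^ r - 1) * (i + 1))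

/-- **TR0.** The same with the lift `t` of the roots of unity into a domain: `∑_(ρ ∈ 𝔽_(q^r)) t(ρ)^e` is `q^r` for `e = 0`,
`q^r - 1` for `e > 0`, `(q^r - 1) ∣ e`, and `0` otherwise (multiply by `t(ζ)^e ≠ 1`). `deg P_r ≤ n (q^r - 1)`, constant
coefficient of `P_r` is `P(0)^r`. -/
def S_TR0 : Prop := ∀ (Fq Kb O : Type) [Field Fq] [Fintype Fq] [Field Kb] [Algebra Fq Kb]
  [IsAlgClosed Kb] [CommRing O] [IsDomain O] (t : Kb →*₀ O) (q n r : ℕ) (P : O[X]),
  Function.Injective t → q = Fintype.card Fq → 1 ≤ n → P.natDegree ≤ n * (q - 1) → 1 ≤ r →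
  ∑ ρ ∈ fr Kb q r, (Pr q P r).eval (t ρ) =
    (q : O) ^ r * P.coeff 0 ^ r +
      ((q : O) ^ r - 1) * ∑ i ∈ range n, (Pr q P r).coeff ((q ^ r - 1) * (i + 1))

/-- **JAC.** Jacobi's formula. Proof. The derivative of a determinant over a commutative ring with a derivation `D` is
`tr (adj(N) D(N))` (Leibniz formula for the product in `Matrix.det_apply`, or multilinearity in the rows). For `N = 1 - X M`:
`D(N) = -M`. `N * ∑_(r ≥ 0) X^r M^r = 1`, so `adj N = det N * ∑ X^r M^r`, hence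
`X D(det N) = - det N * ∑_(r ≥ 0) X^(r+1) tr (M^(r+1))`. -/
def S_JAC : Prop := ∀ (O : Type) [CommRing O] (R : ℕ) (M : Matrix (Fin R) (Fin R) O),
  PowerSeries.X * PowerSeries.derivative O (dX M) =
    - (dX M * PowerSeries.mk fun r => if r = 0 then 0 else (M ^ r).trace)

/-- **UNI.** Proof. `V` is a unit; or by strong induction on the coefficient `n`: the coefficient at `n` of
`X U' V - U X V'` is `n (u_n - v_n)` plus terms with smaller indices, which cancel as `u_i = v_i` for `i < n`. -/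
def S_UNI : Prop := ∀ (O : Type) [CommRing O] [IsDomain O] [CharZero O] (U V : PowerSeries O),
  PowerSeries.constantCoeff U = 1 → PowerSeries.constantCoeff V = 1 →
  PowerSeries.X * PowerSeries.derivative O U * V = U * (PowerSeries.X * PowerSeries.derivative O V) →
  U = V

/-- **DET.** Determinant formula `det (1 - X Ψ) = ∑_c X^(deg c) W(c)`. Write it as a theorem with the hypotheses
`S_POW → S_EUL → S_TR0 → S_JAC → S_UNI → S_DET`. Proof. Let `Kb` be an algebraic closure of `E` (with the obvious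
`Algebra Fq Kb`), `O = WittVector p Kb`, a domain of characteristic `0`, `t = WittVector.teichmuller p`, `t` is injective and
multiplicative, `red = WittVector.constantCoeff : O →+* Kb`, `red (t x) = x`, `red p = 0`. `P̃ = ∏ (X - C (t x))` over
`x ∈ s` maps to `P`. `Z = ∑_j X^j ∑_(c : Fin j → Fq) wt (fun ρ => P̃.eval (t ρ)) (mp c)` in `O⟦X⟧`. EUL with `ψ = 1`
(`ad ψ c = deg c`) gives `X Z' = Z * ∑_(r ≥ 1) S_r X^r`, `S_r = ∑_(ρ ∈ 𝔽_(q^r)) ∏_(l<r) P̃(t(ρ)^(q^l)) = ∑ P̃_r(t ρ)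
= q^r P̃(0)^r + (q^r - 1) tr(M^r)` by TR0 and POW (`M = MatP q P̃ R`; the trace of `M^r = M^(r-1) MatM 0` is
`∑_(i<R) [P̃_r]_((q^r-1)(i+1))`, zero for `i ≥ n`). Let `D(X) = dX M`, `D_q(X) = D(qX) = dX (q M)`. By JAC
`X D' = - D ∑ tr(M^r) X^r`, the same for `q M`, so `U = Z (1 - q P̃(0) X) D_q` and `V = D` satisfy UNI, hence
`Z (1 - q P̃(0) X) D_q = D`. Apply `red` (`q ↦ 0`, `D_q ↦ 1`): `red Z = dX (MatP q P R)` in `Kb⟦X⟧`, and
`red (wt …) = ∏_(ρ root of c) P(ρ) = ∏_ρ ∏_(x ∈ s) (ρ - x) = ∏_x (-1)^(deg c) c(x)`, and `(-1)^(card s) = 1` in `E`, as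
`card s = n (q - 1)`. -/
def S_DET : Prop := ∀ (Fq E : Type) [Field Fq] [Fintype Fq] [Field E] [Algebra Fq E]
  (q n R : ℕ) (s : Multiset E), q = Fintype.card Fq → 1 ≤ n → n ≤ R → Multiset.card s = n * (q - 1) →
  ∀ j, PowerSeries.coeff j (dX (MatP q ((s.map fun t => X - C t).prod) R)) =
    ∑ c : Fin j → Fq, (s.map fun t => aeval t (mp c)).prod

/-- **NEW.** Power sums of the roots. Proof. `c = ∏ (X - ρ)` over `Kb`. The reversed polynomial is `∏ (1 - ρ X)` and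
`∑_i i c_i X^(deg c - i) = ∑_ρ ∏_(ρ' ≠ ρ) (1 - ρ' X)` (induction on the roots, or: the second series is
`X^(deg-1) c'(1/X) * …`), so the quotient is `∑_ρ 1/(1 - ρ X)`. -/
def S_NEW : Prop := ∀ (Fq Kb : Type) [Field Fq] [Field Kb] [Algebra Fq Kb] [IsAlgClosed Kb]
  (m : ℕ) (c : Fq[X]), c.Monic → algebraMap Fq Kb (ps m c) = ad (fun ρ : Kb => ρ ^ m) c

/-- **ADJ.** Trace formula with weights at `X = 1`. Write it with the hypotheses `S_POW → S_EUL → S_TR1 → S_DET → S_NEW → S_ADJ`.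
Proof. Work over an algebraic closure `Kb` of `E` (`algebraMap E Kb` is injective and commutes with `MatP`, `adjugate`,
`trace`). Let `M = MatP q P R`, `N = MatM q P R m`. `φ(ρ) = P(ρ)`, `ψ(ρ) = ρ^m`; `wt φ c = ∏_(x ∈ s) c(x)` for monic `c` as in
DET. EUL: `∑_j X^j ∑_c W(c) p_m(c) = (∑_j X^j ∑_c W(c)) * ∑_(r ≥ 1) X^r ∑_(ρ ∈ 𝔽_(q^r)) ρ^m P_r(ρ)`, by DET the first factor
is `det (1 - X M)`, by TR1 and POW the inner sum is `- tr (M^(r-1) N)` (the diagonal entry of `M^(r-1) N` at `i` is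
`[X^(i+m) P_r]_(q^r i + q^r - 1) = [X^m P_r]_((q^r-1)(i+1))`). So the left side is
`- X det(1 - X M) ∑_(r ≥ 0) X^r tr (M^r N) = - X tr (adj(1 - X M) N)`, a polynomial in `X` of degree `≤ R` (the entries of
`adj (1 - X M)`, `M` with entries in `E`, are polynomials of degree `≤ R - 1`); `∑_(j < J)` of its coefficients is its value at
`X = 1`. -/
def S_ADJ : Prop := ∀ (Fq E : Type) [Field Fq] [Fintype Fq] [Field E] [Algebra Fq E]
  (q n m R J : ℕ) (s : Multiset E), q = Fintype.card Fq → 1 ≤ n → n + m ≤ R → R + 1 ≤ J →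
  Multiset.card s = n * (q - 1) →
  ∑ j ∈ range J, ∑ c : Fin j → Fq, (s.map fun t => aeval t (mp c)).prod *
      algebraMap Fq E (ps m (mp c)) =
    - ((1 - MatP q ((s.map fun t => X - C t).prod) R).adjugate *
        MatM q ((s.map fun t => X - C t).prod) R m).trace

/-- **KAP.** `κ ∘ Ψ = κ`. Proof. With `N = n (q-1)`: `κ(Λ_q(fP)) = ∑_l h_l [fP]_(q l + N + n - 1)
= ∑_j f_j ∑_l h_l P_(N + n - 1 + q l - j)`, and `P_(N - i)`, `i = j - (n-1) - q l`, is the coefficient of the reversed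
polynomial, so the inner sum is `h_(j-n+1)` by FEq. -/
def S_KAP : Prop := ∀ (E : Type) [Field E] (q n : ℕ) (P : E[X]) (h : PowerSeries E), 2 ≤ q → 1 ≤ n →
  P.natDegree = n * (q - 1) → FEq q (n * (q - 1)) P h → ∀ f : E[X], kap n h (Lam q (f * P)) = kap n h f

/-- **RNK.** Linear algebra; hypothesis `S_KAP → S_RNK`. Proof. `M = MatP q P R` is the matrix of `Ψ` on the polynomials of
degree `< R` (`Ψ` preserves them, `R ≥ n`). By KAP the row vector `κ_j = κ(X^j)` satisfies `κ (1 - M) = 0`, `κ_(n-1) = 1`, so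
`det (1 - M) = 0` and `A (1 - M) = 0 = (1 - M) A`, `A = adj (1 - M)`. If `A = 0`, then the kernel of `1 - M` has dimension
`≥ 2` (write `1 - M = U D V` with `U, V` products of transvections and `D` diagonal,
`Matrix.Pivot.exists_list_transvec_mul_diagonal_mul_list_transvec`; `adj D = 0` means that two diagonal entries vanish; in
particular `R ≥ 2`); a kernel vector is a polynomial `f` of degree `< R` with `Λ_q (f P) = f`, and then `deg f < n`
(if `deg f = r ≥ n`, then `deg Λ_q (f P) ≤ (r + (n-1)(q-1))/q < r`). If `A ≠ 0`, the rank of `1 - M` is `R - 1`, the rows of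
`A` lie in the left kernel of `1 - M`, which is spanned by `κ`, so `A i j = x_i κ_j`, and `x_i = A i (n-1)`. The column
`(A i (n-1))_i` is in the kernel of `1 - M`, so it is a polynomial of degree `< n`. -/
def S_RNK : Prop := ∀ (E : Type) [Field E] (q n R : ℕ) (P : E[X]) (h : PowerSeries E), 2 ≤ q →
  1 ≤ n → (hR : n ≤ R) → P.Monic → P.natDegree = n * (q - 1) → FEq q (n * (q - 1)) P h →
  (∀ i j : Fin R, (1 - MatP q P R).adjugate i j =
      (∑ l : Fin R, if (l : ℕ) + 1 = n then (1 - MatP q P R).adjugate i l else 0) *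
        kap n h (X ^ (j : ℕ))) ∧
  (∀ i : Fin R, n ≤ (i : ℕ) → ∀ l : Fin R, (l : ℕ) + 1 = n → (1 - MatP q P R).adjugate i l = 0) ∧
  ((1 - MatP q P R).adjugate = 0 → ∃ f : Fin 2 → E[X], LinearIndependent E f ∧
    ∀ i, (f i).natDegree < n ∧ Lam q (f i * P) = f i)

/-- **GMF.** Hypotheses `S_ADJ → S_KAP → S_RNK → S_GMF`. Proof. For `R ≥ 2 n`, `R ≥ n + m` let `F_R` be the polynomial with
coefficients `A_R i (n-1)`, `A_R = adj (1 - MatP q P R)`; `F_(2n) = fst q n P`. By RNK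
`tr (A_R MatM m) = ∑_(i,j) F_i κ(X^j) MatM_(j i) = κ(Λ_q(X^m F_R P)) = κ(X^m F_R)` (KAP), so by ADJ
`G_m := ∑_(j<J) … = -κ(X^m F_R)` for `J ≥ R + 1` (`G_m` does not depend on `J ≥ R + 1`). `F_R` does not depend on `R`: for
`m ≤ n - 1` both `κ(X^m F_R)` and `κ(X^m F_(2n))` are `-G_m`; if `δ = F_R - F_(2n) ≠ 0` has degree `j ≤ n - 1` take
`m = n - 1 - j`: `κ(X^m δ)` is the leading coefficient of `δ`. If `fst = 0` then `A = 0` by RNK. -/
def S_GMF : Prop := ∀ (Fq E : Type) [Field Fq] [Fintype Fq] [Field E] [Algebra Fq E]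
  (q n : ℕ) (s : Multiset E) (h : PowerSeries E), q = Fintype.card Fq → 1 ≤ n →
  Multiset.card s = n * (q - 1) → FEq q (n * (q - 1)) ((s.map fun t => X - C t).prod) h →
  (∀ m J : ℕ, 2 * n + m + 1 ≤ J →
    ∑ j ∈ range J, ∑ c : Fin j → Fq, (s.map fun t => aeval t (mp c)).prod *
      algebraMap Fq E (ps m (mp c)) = - kap n h (X ^ m * fst q n ((s.map fun t => X - C t).prod))) ∧
  (∀ i, n ≤ i → (fst q n ((s.map fun t => X - C t).prod)).coeff i = 0) ∧
  (fst q n ((s.map fun t => X - C t).prod) = 0 → ∃ f : Fin 2 → E[X], LinearIndependent E f ∧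
    ∀ i, (f i).natDegree < n ∧ Lam q (f i * (s.map fun t => X - C t).prod) = f i)

end Run7.h400.GK
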