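import Pool.Agent.Run7.h400.GK.DefsK

/-!
# Project GK: Bernoulli-Carlitz numbers from the generating function
-/

set_option autoImplicit false

namespace Run7.h400.GK

open Polynomial Finset

variable (Fq : Type) [Field Fq]

theorem Dm_ne {q : ℕ} (hq : 2 ≤ q) (i : ℕ) : Dm q (RatFunc.X : RatFunc Fq) i ≠ 0 := by
  unfold Dm
  rw [Finset.prod_ne_zero_iff]
  intro j hj h
  have hj' : j < i := Finset.mem_range.1 hj
  have h1 : (RatFunc.X : RatFunc Fq) ^ (q ^ i) = RatFunc.X ^ (q ^ j) := sub_eq_zero.1 h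
  rw [← RatFunc.algebraMap_X, ← map_pow, ← map_pow] at h1
  have h2 := RatFunc.algebraMap_injective Fq h1
  have h3 := congrArg natDegree h2
  rw [natDegree_X_pow, natDegree_X_pow] at h3
  exact absurd (Nat.pow_right_injective hq h3) (by omega)

/-- the series `e(z)/z` -/
noncomputable def uu (q : ℕ) : PowerSeries (RatFunc Fq) :=
  PowerSeries.mk fun j => ∑ m ∈ range (j + 1),
      if q ^ m = j + 1 then (Dm q (RatFunc.X : RatFunc Fq) m)⁻¹ else 0

theorem uu_zero {q : ℕ} (hq : 2 ≤ q) : PowerSeries.constantCoeff (uu Fq q) = 1 := by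
  rw [← PowerSeries.coeff_zero_eq_constantCoeff_apply, uu, PowerSeries.coeff_mk]
  simp [Dm]

/-- If `∑ B_n / Π(n) z^n · e(z) = z` then `B_n = BC Fq q n`. -/
theorem eq_BC {q : ℕ} (hq : 2 ≤ q) (B : ℕ → RatFunc Fq)
    (hB : (PowerSeries.mk fun n => B n / ∏ i ∈ range (n + 1),
        (∏ j ∈ range i, ((RatFunc.X : RatFunc Fq) ^ (q ^ i) - RatFunc.X ^ (q ^ j))) ^ (n / q ^ i % q)) *
      (PowerSeries.mk fun m => ∑ i ∈ range (m + 1), if q ^ i = m then
        (∏ j ∈ range i, ((RatFunc.X : RatFunc Fq) ^ (q ^ i) - RatFunc.X ^ (q ^ j)))⁻¹ else 0) =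
      PowerSeries.X) (n : ℕ) : B n = BC Fq q n := by
  have he : (PowerSeries.mk fun m => ∑ i ∈ range (m + 1), if q ^ i = m then
        (∏ j ∈ range i, ((RatFunc.X : RatFunc Fq) ^ (q ^ i) - RatFunc.X ^ (q ^ j)))⁻¹ else 0) =
      uu Fq q * PowerSeries.X := by
    ext m
    rcases m with _ | m
    · rw [PowerSeries.coeff_mk, PowerSeries.coeff_zero_mul_X]
      simp
    · rw [PowerSeries.coeff_succ_mul_X, uu, PowerSeries.coeff_mk, PowerSeries.coeff_mk,
        Finset.sum_range_succ, if_neg, add_zero]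
      · rfl
      · exact ne_of_gt (Nat.lt_pow_self (by omega))
  rw [he, ← mul_assoc] at hB
  have h1 : (PowerSeries.mk fun n => B n / ∏ i ∈ range (n + 1),
        (∏ j ∈ range i, ((RatFunc.X : RatFunc Fq) ^ (q ^ i) - RatFunc.X ^ (q ^ j))) ^ (n / q ^ i % q)) *
      uu Fq q = 1 := by
    have h2 : ((PowerSeries.mk fun n => B n / ∏ i ∈ range (n + 1),
        (∏ j ∈ range i, ((RatFunc.X : RatFunc Fq) ^ (q ^ i) - RatFunc.X ^ (q ^ j))) ^ (n / q ^ i % q)) *
      uu Fq q) * PowerSeries.X = 1 * PowerSeries.X := by rw [hB, one_mul]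
    exact mul_right_cancel₀ PowerSeries.X_ne_zero h2
  have h3 : (PowerSeries.mk fun n => B n / ∏ i ∈ range (n + 1),
        (∏ j ∈ range i, ((RatFunc.X : RatFunc Fq) ^ (q ^ i) - RatFunc.X ^ (q ^ j))) ^ (n / q ^ i % q)) =
      (uu Fq q)⁻¹ := by
    rw [PowerSeries.eq_inv_iff_mul_eq_one (by rw [uu_zero Fq hq]; exact one_ne_zero)]
    exact h1
  have h4 := congrArg (PowerSeries.coeff n) h3
  rw [PowerSeries.coeff_mk] at h4
  have h5 : (∏ i ∈ range (n + 1),
        (∏ j ∈ range i, ((RatFunc.X : RatFunc Fq) ^ (q ^ i) - RatFunc.X ^ (q ^ j))) ^ (n / q ^ i % q)) ≠ 0 :=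
    Finset.prod_ne_zero_iff.2 fun i _ => pow_ne_zero _ (Dm_ne Fq hq i)
  rw [div_eq_iff h5] at h4
  rw [h4, mul_comm]
  rfl

end Run7.h400.GK
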