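import Mathlib

/-!
# Definitions of the project GK (Gekeler's converse of the Okada-Goss theorem, MP_a90b0f_nt)
-/

set_option autoImplicit false

namespace Run7.h400.GK

open Polynomial Finset

section poly

variable {E : Type} [CommRing E]

/-- `Λ_Q (∑ h_i T^i) = ∑ h_(Q i + Q - 1) T^i` (`Q` is `q` or a power of `q`). -/
noncomputable def Lam (Q : ℕ) (h : E[X]) : E[X] :=
  ∑ i ∈ range (h.natDegree + 1), monomial i (h.coeff (Q * i + Q - 1))

theorem coeff_Lam {Q : ℕ} (hQ : 1 ≤ Q) (h : E[X]) (i : ℕ) :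
    (Lam Q h).coeff i = h.coeff (Q * i + Q - 1) := by
  unfold Lam
  rw [finsetSum_coeff]
  simp only [coeff_monomial]
  rw [Finset.sum_ite_eq']
  by_cases hi : i ∈ range (h.natDegree + 1)
  · rw [if_pos hi]
  · rw [if_neg hi]
    symm
    apply coeff_eq_zero_of_natDegree_lt
    have h1 : h.natDegree + 1 ≤ i := by simpa using hi
    have h2 : i ≤ Q * i := Nat.le_mul_of_pos_left i hQ
    omega

/-- `P_r = P(T) P(T^q) ⋯ P(T^(q^(r-1)))` -/
noncomputable def Pr (q : ℕ) (P : E[X]) (r : ℕ) : E[X] :=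
  ∏ l ∈ range r, expand E (q ^ l) P

/-- the matrix of `Ψ f = Λ_q (f P)` on the polynomials of degree `< R` -/
noncomputable def MatP (q : ℕ) (P : E[X]) (R : ℕ) : Matrix (Fin R) (Fin R) E :=
  Matrix.of fun i j => (X ^ (j : ℕ) * P).coeff (q * i + q - 1)

/-- the matrix of `f ↦ Λ_q (T^m f P)` on the polynomials of degree `< R` -/
noncomputable def MatM (q : ℕ) (P : E[X]) (R m : ℕ) : Matrix (Fin R) (Fin R) E :=
  Matrix.of fun i j => (X ^ ((j : ℕ) + m) * P).coeff (q * i + q - 1)

/-- the characteristic power series `det (1 - X M)` -/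
noncomputable def dX {R : ℕ} (M : Matrix (Fin R) (Fin R) E) : PowerSeries E :=
  Matrix.det (1 - (PowerSeries.X : PowerSeries E) • M.map (PowerSeries.C (R := E)))

end poly

section monic

/-- the monic polynomial `X^j + ∑ c_i X^i` -/
noncomputable def mp {Fq : Type} [CommRing Fq] {j : ℕ} (c : Fin j → Fq) : Fq[X] :=
  X ^ j + ∑ i : Fin j, C (c i) * X ^ (i : ℕ)

variable {Fq Kb R : Type} [Field Fq] [Field Kb] [Algebra Fq Kb] [CommRing R]

/-- multiplicative weight: the product of `φ` over the roots -/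
noncomputable def wt (φ : Kb → R) (c : Fq[X]) : R := ((c.map (algebraMap Fq Kb)).roots.map φ).prod

/-- additive weight: the sum of `ψ` over the roots -/
noncomputable def ad (ψ : Kb → R) (c : Fq[X]) : R := ((c.map (algebraMap Fq Kb)).roots.map ψ).sum

open Classical in
/-- the elements of the field with `q^r` elements in `Kb` -/
noncomputable def fr (Kb : Type) [Field Kb] (q r : ℕ) : Finset Kb :=
  (X ^ (q ^ r) - X : Kb[X]).roots.toFinset

end monic

section kappa

variable {E : Type} [Field E]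

/-- the functional `κ(f) = ∑_(j ≥ n-1) f_j h_(j-n+1)` -/
noncomputable def kap (n : ℕ) (h : PowerSeries E) (f : E[X]) : E :=
  f.sum fun j a => if n ≤ j + 1 then a * PowerSeries.coeff (j + 1 - n) h else 0

/-- the functional equation `h(X) = P^rev(X) h(X^q)` for `P` of degree `N` -/
def FEq (q N : ℕ) (P : E[X]) (h : PowerSeries E) : Prop :=
  PowerSeries.constantCoeff h = 1 ∧
    ∀ m, PowerSeries.coeff m h = ∑ j ∈ range (m / q + 1),
      (if m - q * j ≤ N then P.coeff (N - (m - q * j)) else 0) * PowerSeries.coeff j h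

/-- `∏_(l ≥ 0) (1 - t X^(q^l))` -/
noncomputable def Hth (q : ℕ) (t : E) : PowerSeries E :=
  PowerSeries.mk fun m => if ∀ a ∈ Nat.digits q m, a ≤ 1 then (-t) ^ (Nat.digits q m).sum else 0

/-- the adjugate of `1 - Ψ` on the polynomials of degree `< 2n`, applied to `T^(n-1)` -/
noncomputable def fst (q n : ℕ) (P : E[X]) : E[X] :=
  ∑ i : Fin (2 * n), C ((1 - MatP q P (2 * n)).adjugate.mulVec
    (fun j => if (j : ℕ) + 1 = n then 1 else 0) i) * X ^ (i : ℕ)

end kappa

section powersums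

/-- the power sums `p_m(c)` of the roots of a monic polynomial `c`: `c'(T)/c(T) = ∑ p_m(c) T^(-m-1)` -/
noncomputable def ps {Fq : Type} [Field Fq] (m : ℕ) (c : Fq[X]) : Fq :=
  PowerSeries.coeff m
    ((∑ i ∈ range (c.natDegree + 1), PowerSeries.monomial (c.natDegree - i) ((i : Fq) * c.coeff i)) *
      (∑ i ∈ range (c.natDegree + 1), PowerSeries.monomial (c.natDegree - i) (c.coeff i))⁻¹)

end powersums

section laurent

variable {E : Type} [Field E]

/-- `T = -π^(-(q-1))` in the field of Laurent series in `π` -/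
noncomputable def TT (E : Type) [Field E] (q : ℕ) : LaurentSeries E :=
  HahnSeries.single (-((q : ℤ) - 1)) (-1 : E)

/-- the substitution `X ↦ T⁻¹ = -π^(q-1)` for power series (`q ≥ 2`) -/
noncomputable def sb (q : ℕ) (h : PowerSeries E) : LaurentSeries E :=
  HahnSeries.ofPowerSeries ℤ E (PowerSeries.mk fun m =>
    if (q - 1) ∣ m then (-1) ^ (m / (q - 1)) * PowerSeries.coeff (m / (q - 1)) h else 0)

/-- the Gauss sum `g = -δ⁻¹ π⁻¹ ∏_(l ≥ 0) (1 - t T^(-q^l))⁻¹` -/
noncomputable def gg (q : ℕ) (δ t : E) : LaurentSeries E :=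
  HahnSeries.single (-1 : ℤ) (-δ⁻¹) * (sb q (Hth q t))⁻¹

end laurent

section carlitz

/-- `D_m(θ) = ∏_(j < m) (θ^(q^m) - θ^(q^j))` in any ring -/
noncomputable def Dm {R : Type} [CommRing R] (q : ℕ) (θ : R) (m : ℕ) : R :=
  ∏ j ∈ range m, (θ ^ (q ^ m) - θ ^ (q ^ j))

/-- the `i`-th digit of `k` in base `q` -/
def dg (q k i : ℕ) : ℕ := k / q ^ i % q

/-- the power series `e(z)/z = ∑_(m < d) z^(q^m - 1) / D_m(θ)` (truncated at `m < d`) -/
noncomputable def ez {R : Type} [Field R] (q d : ℕ) (θ : R) : PowerSeries R :=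
  ∑ m ∈ range d, PowerSeries.monomial (q ^ m - 1) (Dm q θ m)⁻¹

end carlitz

end Run7.h400.GK
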