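import Pool.Agent.Run7.h400.GK.DefsK

/-!
# Project GK, part A: Carlitz cyclotomic fields
-/

set_option autoImplicit false

namespace Run7.h400.GK

open Polynomial Finset TensorProduct nonZeroDivisors

section carlitz

variable {Fq F : Type} [Field Fq] [Field F] [Algebra Fq[X] F]

/-- the Carlitz action of `a ∈ Fq[T]` on `x`: `C_T(x) = T x + x^q`, additive in `a`, `C_c(x) = c x` -/
noncomputable def cact (q : ℕ) (a : Fq[X]) (x : F) : F :=
  a.sum fun i c => algebraMap Fq[X] F (C c) *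
    (fun y : F => algebraMap Fq[X] F X * y + y ^ q)^[i] x

variable [Algebra (RatFunc Fq) F] [IsScalarTower Fq[X] (RatFunc Fq) F]

/-- `F = K(λ)` is the `w`-th Carlitz cyclotomic field over `K = Fq(T)` -/
structure CFD (Fq F : Type) [Field Fq] [Fintype Fq] [Field F] [Algebra Fq[X] F]
    [Algebra (RatFunc Fq) F] [IsScalarTower Fq[X] (RatFunc Fq) F] (w : Fq[X]) (q : ℕ) (lm : F) :
    Prop where
  hq : q = Fintype.card Fq
  irr : Irreducible w
  monic : w.Monic
  ne : lm ≠ 0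
  tor : cact q w lm = 0
  gen : IntermediateField.adjoin (RatFunc Fq) {lm} = ⊤

/-- the integral closure of `Fq[T]` in `F` -/
noncomputable abbrev OF (Fq F : Type) [Field Fq] [Field F] [Algebra Fq[X] F] : Subalgebra Fq[X] F :=
  integralClosure Fq[X] F

/-- the restriction of an automorphism to the ring of integers -/
noncomputable def sO (σ : F ≃ₐ[RatFunc Fq] F) : OF Fq F →+* OF Fq F :=
  ((σ.restrictScalars Fq[X]).mapIntegralClosure : OF Fq F ≃ₐ[Fq[X]] OF Fq F).toAlgHom.toRingHom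

variable {E : Type} [Field E] [Algebra Fq E]

open Classical in
/-- the representative of degree `< d` of `z ∈ E = Fq(θ)` -/
noncomputable def rp (θ : E) (d : ℕ) (z : E) : Fq[X] :=
  Classical.epsilon fun a : Fq[X] => a.degree < d ∧ aeval θ a = z

/-- the torsion points `λ_z`, `z ∈ E` -/
noncomputable def tz (q : ℕ) (θ : E) (d : ℕ) (lm : F) (z : E) : F := cact q (rp (Fq := Fq) θ d z) lm

/-- derivations `d/dT` -/
def IsDd (D : F →+ F) : Prop :=
  (∀ x y, D (x * y) = x * D y + y * D x) ∧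
    ∀ c : Fq[X], D (algebraMap Fq[X] F c) = algebraMap Fq[X] F (derivative c)

/-- Cartier operators with respect to `T` -/
def IsCart {S : Type} [CommRing S] (p : ℕ) (T : S) (Cr : S →+ S) : Prop :=
  (∀ x y, Cr (x ^ p * y) = x * Cr y) ∧ (∀ i, i + 1 < p → Cr (T ^ i) = 0) ∧ Cr (T ^ (p - 1)) = 1

end carlitz

section tensor

variable {Fq E F : Type} [Field Fq] [Field E] [Fintype E] [Algebra Fq E] [Field F] [Algebra Fq[X] F]
  [Algebra Fq F]

open Classical in
/-- the Gauss sums in `E ⊗ F` -/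
noncomputable def gM (q : ℕ) (θ : E) (d : ℕ) (lm : F) (i : ℕ) : E ⊗[Fq] F :=
  - ∑ z ∈ univ.filter (fun z : E => z ≠ 0), ((z⁻¹) ^ (q ^ i)) ⊗ₜ[Fq] (tz (Fq := Fq) q θ d lm z)

/-- `T` in `E ⊗ F` -/
noncomputable def TM (Fq E F : Type) [Field Fq] [Field E] [Algebra Fq E] [Field F] [Algebra Fq[X] F]
    [Algebra Fq F] : E ⊗[Fq] F := 1 ⊗ₜ[Fq] (algebraMap Fq[X] F X)

/-- `y_f = ∏ g_i^(k_i) f(T) / w` in `E ⊗ F` -/
noncomputable def yM (q d k : ℕ) (w : Fq[X]) (θ : E) (lm : F) (f : E[X]) : E ⊗[Fq] F :=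
  (∏ i ∈ range d, gM (Fq := Fq) q θ d lm i ^ dg q k i) * aeval (TM Fq E F) f *
    (1 ⊗ₜ[Fq] (algebraMap Fq[X] F w)⁻¹)

end tensor

end Run7.h400.GK
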