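import Pool.Agent.Run7.h400.GK.Defs

/-!
# Project GK: the field `E((π))`, arithmetic data, Bernoulli-Carlitz numbers
-/

set_option autoImplicit false

namespace Run7.h400.GK

open Polynomial Finset

/-- `w` monic irreducible of degree `d` over the field `Fq` with `q` elements, `θ` a root of `w` in
the field `E` with `q^d` elements. -/
structure Dat (Fq E : Type) [Field Fq] [Fintype Fq] [Field E] [Fintype E] [Algebra Fq E]
    (w : Fq[X]) (θ : E) (q d : ℕ) : Prop where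
  hq : q = Fintype.card Fq
  hd : Fintype.card E = q ^ d
  hd1 : 1 ≤ d
  irr : Irreducible w
  monic : w.Monic
  deg : w.natDegree = d
  root : aeval θ w = 0

variable {Fq E : Type} [Field Fq] [Field E] [Algebra Fq E]

/-- the Gauss sums `g_i` -/
noncomputable def gk (q : ℕ) (w : Fq[X]) (θ : E) (i : ℕ) : LaurentSeries E :=
  gg q (aeval (θ ^ (q ^ i)) (derivative w)) (θ ^ (q ^ i))

/-- `λ(a) = ∑ a^(q^i) g_i` for a sequence `g` in a field `K` -/
noncomputable def lam {K : Type} [Field K] [Algebra E K] (q d : ℕ) (g : ℕ → K) (a : E) : K :=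
  ∑ i ∈ range d, algebraMap E K (a ^ (q ^ i)) * g i

/-- `N(a) = ∑ a^(q^i) g_i / (T - θ^(q^i))` -/
noncomputable def nu {K : Type} [Field K] [Algebra E K] (q d : ℕ) (θ : E) (T : K) (g : ℕ → K)
    (a : E) : K :=
  ∑ i ∈ range d, algebraMap E K (a ^ (q ^ i)) * g i / (T - algebraMap E K (θ ^ (q ^ i)))

open Classical in
/-- `Γ = ∑_(a ≠ 0) a^(-k) N(a) / λ(a)` -/
noncomputable def Gam {K : Type} [Field K] [Algebra E K] [Fintype E] (q d k : ℕ) (θ : E) (T : K)
    (g : ℕ → K) : K :=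
  ∑ a ∈ univ.filter (fun a : E => a ≠ 0),
    algebraMap E K ((a⁻¹) ^ k) * (nu q d θ T g a / lam q d g a)

/-- the multiset of the `θ^(q^i)` with multiplicities `q - 1 - k_i` -/
noncomputable def msk (q d k : ℕ) (θ : E) : Multiset E :=
  ∑ i ∈ range d, Multiset.replicate (q - 1 - dg q k i) (θ ^ (q ^ i))

/-- `n = d - (sum of the digits of k)/(q-1)` -/
def nk (q d k : ℕ) : ℕ := d - (∑ i ∈ range d, dg q k i) / (q - 1)

/-- `P = ∏ (T - θ^(q^i))^(q - 1 - k_i)` -/
noncomputable def PP (q d k : ℕ) (θ : E) : E[X] :=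
  ∏ i ∈ range d, (X - C (θ ^ (q ^ i))) ^ (q - 1 - dg q k i)

/-- the Bernoulli-Carlitz number `B_k`, defined by `z / e(z) = ∑ B_k / Π(k) z^k`,
`e(z) = ∑ z^(q^m) / D_m`, `Π(k) = ∏ D_i^(k_i)` -/
noncomputable def BC (Fq : Type) [Field Fq] (q k : ℕ) : RatFunc Fq :=
  (∏ i ∈ range (k + 1), (Dm q (RatFunc.X : RatFunc Fq) i) ^ (dg q k i)) *
    PowerSeries.coeff k (PowerSeries.mk fun j => ∑ m ∈ range (j + 1),
      if q ^ m = j + 1 then (Dm q (RatFunc.X : RatFunc Fq) m)⁻¹ else 0)⁻¹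

/-- `w` divides the Bernoulli-Carlitz number `B_k` (in the localisation of `Fq[T]` at `w`) -/
def DvdBC (q k : ℕ) (w : Fq[X]) : Prop :=
  ∃ a b : Fq[X], ¬ w ∣ b ∧
    BC Fq q k * algebraMap Fq[X] (RatFunc Fq) b = algebraMap Fq[X] (RatFunc Fq) (w * a)

end Run7.h400.GK
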