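import Pool.Agent.Run7.h400.GK.DefsA

/-!
# Project GK, part B: class group, units, Witt vectors: statements
-/

set_option autoImplicit false

namespace Run7.h400.GK

open Polynomial Finset TensorProduct nonZeroDivisors

/-- `(h)` is the `p`-th power of a fractional ideal of class `c` -/
def Rt {O : Type} (F : Type) [CommRing O] [IsDomain O] [Field F] [Algebra O F] [IsFractionRing O F]
    (p : ℕ) (h : F) (c : ClassGroup O) : Prop :=
  h ≠ 0 ∧ ∃ I : (FractionalIdeal O⁰ F)ˣ,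
    FractionalIdeal.spanSingleton O⁰ h = ((I ^ p : (FractionalIdeal O⁰ F)ˣ) : FractionalIdeal O⁰ F) ∧
      ClassGroup.mk F I = c

/-- **RTP.** Proof. The group of fractional ideals of a Dedekind domain is torsion free (unique factorisation:
`FractionalIdeal.count`), so `I ^ p = (x)^p` implies `I = (x)`. If the class is trivial, `I = (x)` and `h = ε x^p`, `ε` a unit of
`O`. -/
def S_RTP : Prop := ∀ (O F : Type) [CommRing O] [IsDedekindDomain O] [Field F] [Algebra O F]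
  [IsFractionRing O F] (p : ℕ), 0 < p →
  (∀ (h h' : F) (c c' : ClassGroup O), Rt F p h c → Rt F p h' c' → Rt F p (h * h') (c * c')) ∧
  (∀ (x : F) (c : ClassGroup O), Rt F p (x ^ p) c → c = 1) ∧
  (∀ (h : F), Rt F p h (1 : ClassGroup O) → ∃ (ε : Oˣ) (x : F), x ≠ 0 ∧ h = algebraMap O F ε * x ^ p) ∧
  (∀ (h : F) (c : ClassGroup O), Rt F p h c → Rt F p h⁻¹ c⁻¹) ∧
  (∀ (h : F) (c : ClassGroup O), Rt F p h c → c ^ p = 1)

/-- **RHO.** The action of automorphisms on the class group. Proof. `ClassGroup.extendedHom O O` for the algebra structure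
given by `sO σ` (an automorphism; `ClassGroup.extendedHom_mk0`), or directly with the map on fractional ideals induced by `σ`
(`I ↦ σ(I)`). Every class is some `ClassGroup.mk0 I`. -/
def S_RHO : Prop := ∀ (Fq F : Type) [Field Fq] [Fintype Fq] [Field F] [Algebra Fq[X] F]
  [Algebra (RatFunc Fq) F] [IsScalarTower Fq[X] (RatFunc Fq) F] [IsDedekindDomain (OF Fq F)]
  [IsFractionRing (OF Fq F) F],
  ∃ ρ : (F ≃ₐ[RatFunc Fq] F) → (ClassGroup (OF Fq F) →* ClassGroup (OF Fq F)),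
    (∀ σ (I J : (Ideal (OF Fq F))⁰), (J : Ideal (OF Fq F)) = (I : Ideal (OF Fq F)).map (sO (Fq := Fq) σ) →
      ρ σ (ClassGroup.mk0 I) = ClassGroup.mk0 J) ∧
    (∀ (p : ℕ) (σ : F ≃ₐ[RatFunc Fq] F) (h : F) (c : ClassGroup (OF Fq F)), Rt F p h c → Rt F p (σ h) (ρ σ c))

/-- **CLA.** From a nonzero equivariant map `κ : E → M` to an eigenvector. Proof. `κ(E)` is in `M[p] = {m : p m = 0}`. Let
`(b_i)`, `(b_i*)` be dual bases of `E` over `ZMod p` for the trace form, and `x = ∑ [b_i*] ⊗ κ(b_i) ∈ W ⊗ M[p]`,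
`W = WittVector p E`, `[ ]` the Teichmueller lift. `W ⊗_ℤ M[p] = E ⊗_(ZMod p) M[p]` (`W / p = E`), and
`E ⊗ M[p] → Hom(E, M[p])`, `e ⊗ m ↦ (γ ↦ Tr(e γ) m)` is an isomorphism (basis!) which maps `x` to `κ`; so `x ≠ 0`, and
`(id ⊗ ρ_σ) x` and `[u_σ]^k x` both go to `γ ↦ κ(u_σ^k γ)`. `W` is torsion free, hence flat over `ℤ`, so `W ⊗ M[p] → W ⊗ M` is
injective. -/
def S_CLA : Prop := ∀ (p : ℕ) [Fact p.Prime] (E G M : Type) [Field E] [Fintype E] [CharP E p]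
  [AddCommGroup M] (u : G → E) (ρ : G → (M →+ M)) (k : ℕ) (κ : E →+ M),
  (∀ σ γ, ρ σ (κ γ) = κ (u σ ^ k * γ)) → κ ≠ 0 →
  ∃ x : (WittVector p E) ⊗[ℤ] M, x ≠ 0 ∧
    ∀ σ, LinearMap.lTensor (WittVector p E) (ρ σ).toIntLinearMap x =
      (WittVector.teichmuller p (u σ)) ^ k • x

/-- **UNB.** The eigenspace in the units has rank at most one. Proof. `W = WittVector p E`. As in CLA the two maps `μ_i`
(additive and equivariant modulo `p U`) give `x_i ∈ E ⊗ (U / p U) = (W ⊗ U)/p`, eigenvectors `(id ⊗ ρ_σ) x_i = u_σ^k x_i`, linearly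
independent over `E` (`e x_i` corresponds to `γ ↦ μ_i(e γ)`). Lift `x_i` to `X_i' ∈ W ⊗ U` and put
`X_i = |G|^(-1) ∑_σ [u_σ]^(-k) ρ_σ X_i'`; then `ρ_σ X_i = [u_σ]^k X_i` and `X_i` lifts `x_i`. `V = id ⊗ v : W ⊗ U → W`. If `X` is an
eigenvector with `V(X) = 0`, then `V(ρ_σ X) = 0` for all `σ`, so `X` is in the kernel of `W ⊗ U → W ⊗ ℤ^G`, which is
`W ⊗ U₀` (flatness), `U₀ = {x : ∀ σ, v(ρ_σ x) = 0}`, and `W ⊗ U₀ = 0` as `N` is invertible in `W`. `W` is a discrete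
valuation ring, so `V(X_2) = c V(X_1)` or `V(X_1) = c V(X_2)`, hence `X_2 = c X_1` or `X_1 = c X_2`: contradiction. -/
def S_UNB : Prop := ∀ (p : ℕ) [Fact p.Prime] (E G U : Type) [Field E] [Fintype E] [CharP E p]
  [Group G] [Fintype G] [AddCommGroup U] (u : G →* E) (ρ : G → (U →+ U)) (k N : ℕ) (v : U →+ ℤ)
  (μ : Fin 2 → E → U), ¬ p ∣ Fintype.card G → (∀ σ, u σ ≠ 0) → (∀ x, ρ 1 x = x) →
  (∀ σ τ x, ρ (σ * τ) x = ρ σ (ρ τ x)) → ¬ p ∣ N → (∀ x, (∀ σ, v (ρ σ x) = 0) → N • x = 0) →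
  (∀ i γ γ', ∃ t, μ i (γ + γ') = μ i γ + μ i γ' + p • t) →
  (∀ i σ γ, ∃ t, ρ σ (μ i γ) = μ i (u σ ^ k * γ) + p • t) →
  (∀ e₀ e₁ : E, (e₀ ≠ 0 ∨ e₁ ≠ 0) → ∃ γ, ¬ ∃ t, μ 0 (e₀ * γ) + μ 1 (e₁ * γ) = p • t) → False

/-- the conclusion: the `w^k`-component of `W ⊗ Cl` is not zero -/
def Concl (p : ℕ) [Fact p.Prime] (Fq E F : Type) [Field Fq] [Fintype Fq] [Field E] [Algebra Fq E]
    [Field F] [Algebra Fq[X] F] [Algebra (RatFunc Fq) F] [IsScalarTower Fq[X] (RatFunc Fq) F]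
    (θ : E) (q k : ℕ) (lm : F) : Prop :=
  ∃ _hD : IsDedekindDomain (OF Fq F),
  ∃ ρ : (F ≃ₐ[RatFunc Fq] F) → (ClassGroup (OF Fq F) →* ClassGroup (OF Fq F)),
    (∀ σ (I J : (Ideal (OF Fq F))⁰), (J : Ideal (OF Fq F)) = (I : Ideal (OF Fq F)).map (sO (Fq := Fq) σ) →
      ρ σ (ClassGroup.mk0 I) = ClassGroup.mk0 J) ∧
    ∃ x : (WittVector p E) ⊗[ℤ] (Additive (ClassGroup (OF Fq F))), x ≠ 0 ∧
      ∀ (σ : F ≃ₐ[RatFunc Fq] F) (a : Fq[X]), σ lm = cact q a lm →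
        LinearMap.lTensor (WittVector p E) (MonoidHom.toAdditive (ρ σ)).toIntLinearMap x =
          (WittVector.teichmuller p (aeval θ a)) ^ k • x

/-- **PA.** Conclusion of part A. Proof (assembly, hypotheses all the pieces of StmA and StmB). Suppose that `Concl` fails. Let
`f : Fin 2 → E[X]` be independent with `Λ_q (f_i P) = f_i`. For `f` in the span and `γ ∈ E`: `z = zg f γ` (ZGA), `h` and `I` by HLG
(`D h = z h`), the class `κ(f, γ)` of `I` is well defined (`h` is unique up to `p`-th powers, CAT, RTP) and additive, equivariant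
(`D(σ h) = σ(z) σ(h)`, RHO), so it is zero by CLA; so `h = ε x^p`, `D ε = z ε`. `μ_i(γ) = ε` for `f_i`: additive and equivariant
modulo `p`-th powers (`ε = x^p` in `F` implies `x ∈ O^*`), independent: for `f = e₀ f_0 + e₁ f_1 ≠ 0` some `zg f γ ≠ 0`,
`zg f γ = zg f_0 (e₀ γ) + zg f_1 (e₁ γ)`, while `D(t^p) = 0`. Now UNB with VAL (`N = q^d - 1`) and GAL. -/
def S_PA : Prop := ∀ (p : ℕ) [Fact p.Prime] (Fq E F : Type) [Field Fq] [Fintype Fq] [Field E]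
  [Fintype E] [Algebra Fq E] [CharP E p]
  [Field F] [Algebra Fq[X] F] [Algebra (RatFunc Fq) F] [IsScalarTower Fq[X] (RatFunc Fq) F]
  (w : Fq[X]) (θ : E) (f₀ q d k : ℕ) (lm : F) (f : Fin 2 → E[X]),
  Dat Fq E w θ q d → CFD Fq F w q lm → q = p ^ f₀ → 0 < k → k < q ^ d - 1 → (q - 1) ∣ k →
  LinearIndependent E f → (∀ i, Lam q (f i * PP q d k θ) = f i) → Concl p Fq E F θ q k lm

/-- **MAIN.** The final theorem (Gekeler's question, positive answer). From PC and PA with `E = AdjoinRoot w`, `θ` its root. -/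
def S_MAIN : Prop := ∀ (p : ℕ) [Fact p.Prime] (Fq F : Type) [Field Fq] [Fintype Fq] [CharP Fq p]
  [Field F] [Algebra Fq[X] F] [Algebra (RatFunc Fq) F] [IsScalarTower Fq[X] (RatFunc Fq) F]
  (w : Fq[X]) [Fact (Irreducible w)] (q d k : ℕ) (lm : F), q = Fintype.card Fq → w.Monic →
  w.natDegree = d → lm ≠ 0 → cact q w lm = 0 → IntermediateField.adjoin (RatFunc Fq) {lm} = ⊤ →
  0 < k → k < q ^ d - 1 → (q - 1) ∣ k →
  (∀ k', 0 < k' → k' < q ^ d - 1 → (∃ m, k' ≡ p ^ m * k [MOD q ^ d - 1]) → DvdBC q k' w) →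
  Concl p Fq (AdjoinRoot w) F (AdjoinRoot.root w) q k lm

end Run7.h400.GK
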