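import Pool.Agent.Run7.h400.GK.StmK
import Pool.Agent.Run7.h400.GK.StmB

/-!
# Project GK: the final theorem from parts C and A
-/

set_option autoImplicit false

namespace Run7.h400.GK

open Polynomial Finset TensorProduct nonZeroDivisors

theorem t_MAIN (hPC : S_PC) (hPA : S_PA) : S_MAIN := by
  intro p _ Fq F _ _ _ _ _ _ _ w _ q d k lm hq hw hd hlm htor hgen hk0 hk1 hk2 hB
  have hirr : Irreducible w := Fact.out
  have hdpos : 1 ≤ d := by
    rw [← hd]
    exact hirr.natDegree_pos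
  haveI : Module.Finite Fq (AdjoinRoot w) := (AdjoinRoot.powerBasis hirr.ne_zero).finite
  haveI : Finite (AdjoinRoot w) := Module.finite_of_finite Fq
  letI : Fintype (AdjoinRoot w) := Fintype.ofFinite _
  haveI : CharP (AdjoinRoot w) p := charP_of_injective_algebraMap
    (algebraMap Fq (AdjoinRoot w)).injective p
  have hcard : Fintype.card (AdjoinRoot w) = q ^ d := by
    rw [Module.card_eq_pow_finrank (K := Fq) (V := AdjoinRoot w), ← hq,
      (AdjoinRoot.powerBasis hirr.ne_zero).finrank, AdjoinRoot.powerBasis_dim, hd]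
  have hDat : Dat Fq (AdjoinRoot w) w (AdjoinRoot.root w) q d :=
    { hq := hq
      hd := hcard
      hd1 := hdpos
      irr := hirr
      monic := hw
      deg := hd
      root := by
        rw [AdjoinRoot.aeval_eq, AdjoinRoot.mk_self] }
  have hCFD : CFD Fq F w q lm :=
    { hq := hq
      irr := hirr
      monic := hw
      ne := hlm
      tor := htor
      gen := hgen }
  -- `q` is a power of `p`
  obtain ⟨f₀, hf₀⟩ : ∃ f₀ : ℕ, q = p ^ f₀ := by
    obtain ⟨n, _, hn⟩ := FiniteField.card Fq p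
    exact ⟨n, by rw [hq, hn]⟩
  have hq2 : 2 ≤ q := by
    rw [hq]
    exact Fintype.one_lt_card
  have hcop : Nat.Coprime q (q ^ d - 1) := by
    have h1 : 1 ≤ q ^ d := Nat.one_le_pow _ _ (by omega)
    have h2 : q ^ d = q * q ^ (d - 1) := by
      rw [← pow_succ']
      congr 1
      omega
    rw [Nat.coprime_iff_gcd_eq_one]
    have h3 : Nat.gcd q (q ^ d - 1) ∣ q ^ d := (Nat.gcd_dvd_left _ _).trans
      (by rw [h2]; exact dvd_mul_right _ _)
    have h4 : Nat.gcd q (q ^ d - 1) ∣ q ^ d - 1 := Nat.gcd_dvd_right _ _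
    have h5 : Nat.gcd q (q ^ d - 1) ∣ 1 := by
      have := Nat.dvd_sub h3 h4
      rwa [Nat.sub_sub_self h1] at this
    exact Nat.dvd_one.1 h5
  have hqd : q ^ d ≡ 1 [MOD q ^ d - 1] := by
    have h1 : 1 ≤ q ^ d := Nat.one_le_pow _ _ (by omega)
    exact ((Nat.modEq_iff_dvd' h1).2 dvd_rfl).symm
  obtain ⟨f, hf, hff⟩ := hPC Fq (AdjoinRoot w) w (AdjoinRoot.root w) q d k hDat hk0 hk1 hk2 (by
    intro k' h0 h1 h2
    obtain ⟨m, hm⟩ := h2
    refine hB k' h0 h1 ⟨f₀ * (d * m - m), ?_⟩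
    -- `q^(dm - m) * q^m = q^(dm) ≡ 1`
    have hdm : m ≤ d * m := Nat.le_mul_of_pos_left m hdpos
    have h3 : q ^ (d * m) ≡ 1 [MOD q ^ d - 1] := by
      have := hqd.pow m
      rwa [one_pow, ← pow_mul] at this
    have h4 : q ^ (d * m - m) * (q ^ m * k') ≡ q ^ (d * m - m) * k [MOD q ^ d - 1] :=
      hm.mul_left _
    rw [← mul_assoc, ← pow_add, Nat.sub_add_cancel hdm] at h4
    have h5 : q ^ (d * m) * k' ≡ k' [MOD q ^ d - 1] := by
      have := h3.mul_right k'
      rwa [one_mul] at this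
    have h6 : k' ≡ q ^ (d * m - m) * k [MOD q ^ d - 1] := h5.symm.trans h4
    rw [pow_mul, ← hf₀]
    exact h6)
  exact hPA p Fq (AdjoinRoot w) F w (AdjoinRoot.root w) f₀ q d k lm f hDat hCFD hf₀ hk0 hk1 hk2 hf hff

end Run7.h400.GK
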