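import Pool.Agent.Run7.h11.GK.BER
import Pool.Agent.Run7.h11.GK.STR
import Pool.Agent.Run7.h194.GK.DIG
import Pool.Agent.Run7.h194.GK.HTH
import Pool.Agent.Run7.h227.GK.A
import Pool.Agent.Run7.h227.GK.B
import Pool.Agent.Run7.h510.GK.ADJ
import Pool.Agent.Run7.h592.GK.FRB
import Pool.Agent.Run7.h592.GK.ZJF
import Pool.Agent.Run7.h669.GK.GMF
import Pool.Agent.Run7.h688.GK.EUL
import Pool.Agent.Run7.h688.GK.TR
import Pool.Agent.Run7.h688.GK.DET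
import Pool.Agent.Run7.h760.GK.LOC
import Pool.Agent.Run7.h768.GK.PC
import Pool.Agent.Run7.h824.GK.IN2
import Pool.Agent.Run7.h834.GK.POW
import Pool.Agent.Run7.h888.GK.IN1
import Pool.Agent.Run7.h937.GK.JAC
import Pool.Agent.Run7.h937.GK.NEW
import Pool.Agent.Run7.h937.GK.RNK

/-!
# Project GK: assembly of part C
-/

set_option autoImplicit false

namespace Run7.h400.GK

theorem hGMF : S_GMF :=
  Run7.h669.GK.t_GMF
    (Run7.h510.GK.t_ADJ Run7.h834.GK.t_POW Run7.h688.GK.t_EUL Run7.h688.GK.t_TR1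
      (Run7.h688.GK.t_DET Run7.h834.GK.t_POW Run7.h688.GK.t_EUL Run7.h688.GK.t_TR0 Run7.h937.GK.t_JAC
        Run7.h227.GK.t_UNI) Run7.h937.GK.t_NEW)
    Run7.h227.GK.t_KAP (Run7.h937.GK.t_RNK Run7.h227.GK.t_KAP)

theorem hGRL : S_GRL := Run7.h227.GK.t_GRL Run7.h194.GK.t_HTH Run7.h227.GK.t_SBR

theorem hINF : S_INF :=
  Run7.h824.GK.t_INF
    (Pool.Agent.Run7.h888.GK.t_IN1 Run7.h592.GK.t_FRB (Run7.h592.GK.t_ZJF Run7.h592.GK.t_FRB))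
    (Run7.h824.GK.t_IN2 Run7.h227.GK.t_SBR Run7.h592.GK.t_FRB Run7.h194.GK.t_HTH hGRL)

theorem hSTR : S_STR :=
  Run7.h11.GK.t_STR hGMF Run7.h194.GK.t_HTH Run7.h227.GK.t_SBR (Run7.h227.GK.t_EXP Run7.h227.GK.t_SBR)
    Run7.h592.GK.t_FRB Run7.h194.GK.t_DIG (Run7.h194.GK.t_WTK Run7.h194.GK.t_DIG) hINF

/-- part C, without hypotheses -/
theorem hPC : S_PC :=
  Pool.Agent.Run7.h768.GK.t_PC hSTR Run7.h760.GK.t_LOC (Run7.h11.GK.t_BER Run7.h592.GK.t_FRB) hGMF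
    Run7.h592.GK.t_FRB Run7.h194.GK.t_DIG hGRL Run7.h194.GK.t_HTH

end Run7.h400.GK
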