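import Pool.Agent.Run7.h400.GK.DefsA

/-!
# Project GK, part A: statements

Common setting: `p` prime, `q = p^f₀ = card Fq`, `w` monic irreducible, `F = K(λ)` the Carlitz cyclotomic field (`CFD`), `E` the
field with `q^d` elements with a root `θ` of `w` (`Dat`), `Q = q^d`.
-/

set_option autoImplicit false

namespace Run7.h400.GK

open Polynomial Finset TensorProduct nonZeroDivisors

/-- **CAR.** Coefficients of the Carlitz action. Proof. `C_a = ∑ c_i(a) τ^i` with `c_i(X a) = X c_i(a) + c_(i-1)(a)^q`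
(from `C_(Xa) = C_X C_a`) and `c_i(X a) = X^(q^i) c_i(a) + c_(i-1)(a)` (from `C_a C_X`); `c_0(a) = a`, leading coefficient of
`a` = `c_(deg a)(a)`. Modulo `w`, in `Fq[X]/(w)`, the two formulas give `c_i (θ^(q^i) - θ) = c_(i-1)^q - c_(i-1)`; as
`c_0(w) = w ≡ 0` and `θ^(q^i) ≠ θ` for `0 < i < d`, all `c_i(w)`, `i < d`, are divisible by `w`. The power `x^(q^i)` and
additivity: `F` has characteristic `p`, `q` is a power of `p` (automatic: `Fq[X] → F` is a ring homomorphism). -/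
def S_CAR : Prop := ∀ (Fq : Type) [Field Fq] [Fintype Fq] (w : Fq[X]) (q d : ℕ),
  q = Fintype.card Fq → Irreducible w → w.Monic → w.natDegree = d →
  ∃ cc : ℕ → Fq[X], cc 0 = w ∧ cc d = 1 ∧ (∀ i, i < d → w ∣ cc i) ∧
    ∀ (F : Type) [Field F] [Algebra Fq[X] F] (x : F),
      cact q w x = ∑ i ∈ range (d + 1), algebraMap Fq[X] F (cc i) * x ^ (q ^ i)

/-- **CAL.** Algebra of the Carlitz action: additivity in `x`, additivity and multiplicativity in `a`, compatibility with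
ring homomorphisms. -/
def S_CAL : Prop := ∀ (Fq F : Type) [Field Fq] [Fintype Fq] [Field F] [Algebra Fq[X] F] (q : ℕ),
  q = Fintype.card Fq →
  (∀ (a : Fq[X]) (x y : F), cact q a (x + y) = cact q a x + cact q a y) ∧
  (∀ (a b : Fq[X]) (x : F), cact q (a + b) x = cact q a x + cact q b x) ∧
  (∀ (a b : Fq[X]) (x : F), cact q (a * b) x = cact q a (cact q b x)) ∧
  (∀ (c : Fq) (x : F), cact q (C c) x = algebraMap Fq[X] F (C c) * x) ∧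
  (∀ x : F, cact q (X : Fq[X]) x = algebraMap Fq[X] F X * x + x ^ q) ∧
  ∀ (L : Type) [Field L] [Algebra Fq[X] L] (s : F →+* L),
    (∀ c : Fq[X], s (algebraMap Fq[X] F c) = algebraMap Fq[X] L c) →
    ∀ (a : Fq[X]) (x : F), s (cact q a x) = cact q a (s x)

/-- **TOR.** Torsion points. Hypotheses `S_CAR → S_CAL → S_FRB → S_TOR`. Proof. `a ↦ cact a lm` kills `w`, so it depends on
`a mod w` only, i.e. on `a(θ)`; injective as `w` is irreducible and `lm ≠ 0`. The polynomial `C_w(X)` has degree `q^d` and the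
`q^d` roots `tz z`. -/
def S_TOR : Prop := ∀ (Fq E F : Type) [Field Fq] [Fintype Fq] [Field E] [Fintype E] [Algebra Fq E]
  [Field F] [Algebra Fq[X] F] [Algebra (RatFunc Fq) F] [IsScalarTower Fq[X] (RatFunc Fq) F]
  (w : Fq[X]) (θ : E) (q d : ℕ) (lm : F), Dat Fq E w θ q d → CFD Fq F w q lm →
  (∀ z z' : E, tz (Fq := Fq) q θ d lm (z + z') = tz (Fq := Fq) q θ d lm z + tz (Fq := Fq) q θ d lm z') ∧
  tz (Fq := Fq) q θ d lm 1 = lm ∧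
  (∀ z : E, tz (Fq := Fq) q θ d lm z = 0 ↔ z = 0) ∧
  (∀ (a : Fq[X]) (z : E), cact q a (tz (Fq := Fq) q θ d lm z) = tz (Fq := Fq) q θ d lm (aeval θ a * z)) ∧
  (∀ z : E, algebraMap Fq[X] F X * tz (Fq := Fq) q θ d lm z + tz (Fq := Fq) q θ d lm z ^ q =
    tz (Fq := Fq) q θ d lm (θ * z)) ∧
  (∀ x : F, cact q w x = 0 → ∃ z : E, x = tz (Fq := Fq) q θ d lm z)

/-- **GAL.** Hypotheses `S_CAR → S_CAL → S_FRB → S_TOR → S_GAL`. Proof. `F` is the splitting field of the separable polynomial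
`C_w(X)` (its derivative is the constant `w`). `σ lm` is a nonzero root of `C_w`, so `σ lm = tz u`, `u = u σ ≠ 0`; then
`σ (tz z) = tz (u z)`. `u` is an injective homomorphism into the group `E^*` of order `q^d - 1`, prime to `p`. -/
def S_GAL : Prop := ∀ (Fq E F : Type) [Field Fq] [Fintype Fq] [Field E] [Fintype E] [Algebra Fq E]
  [Field F] [Algebra Fq[X] F] [Algebra (RatFunc Fq) F] [IsScalarTower Fq[X] (RatFunc Fq) F]
  (w : Fq[X]) (θ : E) (q d : ℕ) (lm : F), Dat Fq E w θ q d → CFD Fq F w q lm →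
  FiniteDimensional (RatFunc Fq) F ∧ IsGalois (RatFunc Fq) F ∧
  (∀ p : ℕ, p.Prime → p ∣ q → ¬ p ∣ Nat.card (F ≃ₐ[RatFunc Fq] F)) ∧
  ∃ u : (F ≃ₐ[RatFunc Fq] F) →* E, (∀ σ, u σ ≠ 0) ∧
    (∀ σ z, σ (tz (Fq := Fq) q θ d lm z) = tz (Fq := Fq) q θ d lm (u σ * z)) ∧
    ∀ σ (a : Fq[X]), σ lm = cact q a lm → u σ = aeval θ a

/-- **OFA.** The ring of integers is `A[λ]`. Hypotheses `S_CAR → S_CAL → S_FRB → S_TOR → S_GAL → S_OFA`. Proof.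
`Φ(X) = C_w(X)/X = w + ∑_(i ≥ 1) cc_i X^(q^i - 1)` is monic of degree `Q - 1`, Eisenstein at `w` (CAR), so it is the minimal
polynomial of `lm` over `Fq[X]` and over `K`. `w = λ Φ'(λ)` (differentiate `C_w(X) = X Φ(X)`, `C_w' = w`), so
`w O ⊆ Φ'(λ) O ⊆ A[λ]` (`conductor_mul_differentIdeal` or the dual basis for the trace), and
`Algebra.mem_adjoin_of_smul_prime_smul_of_minpoly_isEisensteinAt` (or the prime power version) gives `O = A[λ]`. The quotients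
`tz z / λ` are integral (`tz z` is a polynomial in `λ` without constant term), for `z ≠ 0` units (exchange the roles of
`λ` and `tz z`: `λ = C_b(tz z)`), and `w = ± ∏_(z ≠ 0) tz z` (product of the roots of `Φ`), so `w = λ^(Q-1) ε`. `A[λ]/(λ) = A/(w)`
is a field, so `λ O` is a prime ideal: if `x = λ^(p-1) y^p ∈ O`, then `(λ y)^p = λ x ∈ O`, so `λ y ∈ O`, `(λ y)^p ∈ λ O`, so
`λ y ∈ λ O` and `y ∈ O`. -/
def S_OFA : Prop := ∀ (Fq E F : Type) [Field Fq] [Fintype Fq] [Field E] [Fintype E] [Algebra Fq E]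
  [Field F] [Algebra Fq[X] F] [Algebra (RatFunc Fq) F] [IsScalarTower Fq[X] (RatFunc Fq) F]
  (w : Fq[X]) (θ : E) (p q d : ℕ) (lm : F), Dat Fq E w θ q d → CFD Fq F w q lm → p.Prime → p ∣ q →
  2 < q ^ d → IsIntegral Fq[X] lm ∧
  (∀ x : F, IsIntegral Fq[X] x → x ∈ Algebra.adjoin Fq[X] {lm}) ∧
  (∃ ε : F, ε ≠ 0 ∧ IsIntegral Fq[X] ε ∧ IsIntegral Fq[X] ε⁻¹ ∧
    algebraMap Fq[X] F w = lm ^ (q ^ d - 1) * ε) ∧
  (∀ z : E, IsIntegral Fq[X] (tz (Fq := Fq) q θ d lm z / lm)) ∧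
  (∀ y : F, IsIntegral Fq[X] (lm ^ (p - 1) * y ^ p) → IsIntegral Fq[X] y) ∧
  ∀ 𝔪 : Ideal (OF Fq F), 𝔪.IsMaximal → (∀ x : OF Fq F, (x : F) = lm → x ∈ 𝔪) →
    ∀ c : Fq[X], algebraMap Fq[X] (OF Fq F) c ∈ 𝔪 → w ∣ c

/-- **DER.** The derivation `D = d/dT` on `F`. Hypotheses `S_CAR → S_CAL → S_FRB → S_TOR → S_GAL → S_OFA → S_DER`. Proof.
Existence of `D` with `D T = 1`: `F / K` is separable (extend the derivation of `K`; or by hand on `K[X]/(Φ)`). It is unique, so it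
commutes with the automorphisms. From `C_w(λ) = 0`: `D λ = - ∑_i (cc_i)' λ^(q^i) / w`, so with `w = λ^(Q-1) ε`:
`λ^(Q-2) D λ = - (w' + ∑_(i ≥ 1) (cc_i)' λ^(q^i - 1)) / ε` is integral, and so `λ^(Q-2) D` maps `A[λ] = O` to `O`. A maximal ideal
`𝔪` with `λ ∈ 𝔪`: `λ^(Q-2) D λ ∉ 𝔪`, since `w' ∉ 𝔪` (OFA, last part; `w ∤ w'`) . If `λ ∉ 𝔪`, let `𝔪 ∩ A = (v)`, `v` irreducible;
`λ^(Q-2) D v = λ^(Q-2) v' ∉ 𝔪` (`v'` is prime to `v`, `Fq` is perfect). -/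
def S_DER : Prop := ∀ (Fq E F : Type) [Field Fq] [Fintype Fq] [Field E] [Fintype E] [Algebra Fq E]
  [Field F] [Algebra Fq[X] F] [Algebra (RatFunc Fq) F] [IsScalarTower Fq[X] (RatFunc Fq) F]
  (w : Fq[X]) (θ : E) (q d : ℕ) (lm : F), Dat Fq E w θ q d → CFD Fq F w q lm → 2 < q ^ d →
  ∃ D : F →+ F, IsDd (Fq := Fq) D ∧ (∀ (σ : F ≃ₐ[RatFunc Fq] F) x, D (σ x) = σ (D x)) ∧
    (∀ x, IsIntegral Fq[X] x → IsIntegral Fq[X] (lm ^ (q ^ d - 2) * D x)) ∧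
    ∀ 𝔪 : Ideal (OF Fq F), 𝔪.IsMaximal → ∃ x ∈ 𝔪, ∃ y : OF Fq F,
      (y : F) = lm ^ (q ^ d - 2) * D (x : F) ∧ y ∉ 𝔪

/-- **DED.** General lemma. Let `O` be a Dedekind domain of characteristic `p` with a derivation `δ`, extended to the field of
fractions, such that no maximal ideal is stable. If `h ≠ 0` and `δ h / h ∈ O`, then `(h)` is a `p`-th power. Proof. Let `𝔪` be
maximal, `m` the exponent of `𝔪` in `(h)`, suppose `p ∤ m`. There is `x ∈ 𝔪` with `δ x ∉ 𝔪`, so `x ∉ 𝔪^2` (`δ 𝔪^2 ⊆ 𝔪`). Write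
`h = x^m u`, `u` a unit at `𝔪`; `u = a/b`, `a, b ∈ O ∖ 𝔪` after multiplying numerator and denominator by suitable elements (the
ideal of denominators). `δ h / h = m δ x / x + δ u / u`, and `b² δ u ∈ O`, so `x * (…)` shows `m δ x ∈ 𝔪`, contradiction. Then the
fractional ideal `∏ 𝔪^(m/p)` works (`FractionalIdeal.count`, `finprod_heightOneSpectrum_factorization`). -/
def S_DED : Prop := ∀ (O F : Type) [CommRing O] [IsDedekindDomain O] [Field F] [Algebra O F]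
  [IsFractionRing O F] (p : ℕ) (δ : F →+ F) (h : F), p.Prime → CharP F p →
  (∀ x y, δ (x * y) = x * δ y + y * δ x) → (∀ x : O, ∃ y : O, algebraMap O F y = δ (algebraMap O F x)) →
  (∀ 𝔪 : Ideal O, 𝔪.IsMaximal → ∃ x ∈ 𝔪, ∃ y : O, algebraMap O F y = δ (algebraMap O F x) ∧ y ∉ 𝔪) →
  h ≠ 0 → (∃ y : O, algebraMap O F y = δ h / h) →
  ∃ I : (FractionalIdeal O⁰ F)ˣ, FractionalIdeal.spanSingleton O⁰ h = ((I ^ p : (FractionalIdeal O⁰ F)ˣ) : FractionalIdeal O⁰ F)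

/-- **JCL.** Jacobson's lemma. Proof. `∇ = D - z` (multiplication by `z`) satisfies `∇^p = D^p - D^(p-1)(z) - z^p = 0`
(Jacobson's formula: `(D + y)^n = ∑_j C(n,j) B_(n-j) D^j` with `B_m = (D + y)^m 1`, so `(D+y)^p = D^p + B_p`, and `B_p = y^p +
D^(p-1) y` in characteristic `p`: `B_p = ∑` over the set partitions of `{1..p}` of the products of `D^(|b|-1) y`, on which the
cyclic group acts with two fixed points; other proofs are possible, e.g. via the generic derivation). As `∇` is nilpotent on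
`F ≠ 0`, it has a kernel: take the last nonzero `∇^i 1`. -/
def S_JCL : Prop := ∀ (F : Type) [Field F] (p : ℕ) (D : F →+ F) (z : F), p.Prime → CharP F p →
  (∀ x y, D (x * y) = x * D y + y * D x) → (∀ x, D^[p] x = 0) → D^[p - 1] z = - z ^ p →
  ∃ h : F, h ≠ 0 ∧ D h = z * h

/-- **CAT.** The Cartier operator on `F`. Hypotheses `S_CAR → S_CAL → S_FRB → S_TOR → S_GAL → S_OFA → S_CAT`. Proof. Every
`x ∈ F` is `∑_(i<p) x_i^p T^i`: the set `F₀` of these is a subring (`T^p` is a `p`-th power) containing `K` (`Fq` is perfect,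
denominators `1/b = b^(p-1)/b^p`) and `λ = - ∑_(i ≥ 1) cc_i λ^(q^i) / w`, so `F₀ = F`. Uniqueness by applying `D^j`. `Cr x = x_(p-1)`;
`D^(p-1) (x_i^p T^i) = 0` for `i < p - 1` and `(p-1)! = -1`. Regularity: let `x = λ^(-(Q-2)) x₀`, `x₀ ∈ O`; by induction
`D^j x ∈ λ^(-(Q-2) - j (Q-1)) O` (`λ^(Q-2) D O ⊆ O`), so `y = λ^(Q-2) Cr x` satisfies
`λ^(p-1) y^p = - λ^(p-1 + p(Q-2)) D^(p-1) x ∈ O`, so `y ∈ O` by OFA. -/
def S_CAT : Prop := ∀ (Fq E F : Type) [Field Fq] [Fintype Fq] [Field E] [Fintype E] [Algebra Fq E]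
  [Field F] [Algebra Fq[X] F] [Algebra (RatFunc Fq) F] [IsScalarTower Fq[X] (RatFunc Fq) F]
  (w : Fq[X]) (θ : E) (p q d : ℕ) (lm : F) (D : F →+ F), Dat Fq E w θ q d → CFD Fq F w q lm →
  p.Prime → p ∣ q → 2 < q ^ d → IsDd (Fq := Fq) D → (∀ (σ : F ≃ₐ[RatFunc Fq] F) x, D (σ x) = σ (D x)) →
  (∀ x, IsIntegral Fq[X] x → IsIntegral Fq[X] (lm ^ (q ^ d - 2) * D x)) →
  (∀ x, D^[p] x = 0) ∧ (∀ x, D x = 0 → ∃ y, x = y ^ p) ∧
  ∃ Cr : F →+ F, IsCart p (algebraMap Fq[X] F X) Cr ∧ (∀ x, Cr x ^ p = - D^[p - 1] x) ∧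
    (∀ (σ : F ≃ₐ[RatFunc Fq] F) x, Cr (σ x) = σ (Cr x)) ∧
    ∀ x, IsIntegral Fq[X] (lm ^ (q ^ d - 2) * x) → IsIntegral Fq[X] (lm ^ (q ^ d - 2) * Cr x)

/-- **EMB.** The embedding at infinity. Hypotheses `S_CAR → S_CAL → S_FRB → S_TOR → S_GAL → S_HTH → S_SBR → S_GRL → S_EMB`.
Proof. In `L = E((π))` the elements `lam(a) = ∑ a^(q^i) g_i` (`g = gk q w θ`) satisfy `T lam(a) + lam(a)^q = lam(θ a)` (GRL), so
`C_b(lam(a)) = lam(b(θ) a)`, in particular `C_w(lam(a)) = 0`; `a ↦ lam(a)` is injective (`lam(a) = 0`, `a ≠ 0` would give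
`lam = 0` and `g_0 = - ∑_(z ≠ 0) z⁻¹ lam(z) = 0`), so these are all roots of `C_w` in an algebraic closure of `L`. `K → L`,
`T ↦ TT`, extends to `F → algebraic closure of L` (`F/K` algebraic), `lm` goes to a nonzero root `lam(a₀)`, so the image is in
`L`. -/
def S_EMB : Prop := ∀ (Fq E F : Type) [Field Fq] [Fintype Fq] [Field E] [Fintype E] [Algebra Fq E]
  [Field F] [Algebra Fq[X] F] [Algebra (RatFunc Fq) F] [IsScalarTower Fq[X] (RatFunc Fq) F]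
  (w : Fq[X]) (θ : E) (q d : ℕ) (lm : F), Dat Fq E w θ q d → CFD Fq F w q lm →
  ∃ ι : F →+* LaurentSeries E, (∀ c : Fq[X], ι (algebraMap Fq[X] F c) = aeval (TT E q) c) ∧
    ∃ a₀ : E, a₀ ≠ 0 ∧ ∀ z : E, ι (tz (Fq := Fq) q θ d lm z) = lam q d (gk q w θ) (z * a₀)

/-- **VAL.** A valuation for the units. Hypotheses `S_GAL → S_EMB → S_VAL`, each applied to the same data. Proof.
`v(ε)` = order of `ι ε` in `π`. If `v(σ ε) = 0` for all `σ`, the characteristic polynomial `∏ (X - σ ε)` has coefficients in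
`Fq[X]` (integral, fixed by the Galois group) with image of order `≥ 0` in `E((π))`, hence in `Fq`. So `ε` is algebraic over
`Fq`, some power `ε^m = 1`, `m` prime to `p`; `ι ε ∈ E((π))` is a root of unity of order prime to `p`, so it is a constant in `E`
(the leading coefficient is a root of unity `e`, and `ι ε / e` is a root of unity of order prime to `p` in `1 + π E[[π]]`, so `1`),
and `ε^(Q-1) = 1`. -/
def S_VAL : Prop := ∀ (Fq E F : Type) [Field Fq] [Fintype Fq] [Field E] [Fintype E] [Algebra Fq E]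
  [Field F] [Algebra Fq[X] F] [Algebra (RatFunc Fq) F] [IsScalarTower Fq[X] (RatFunc Fq) F]
  (w : Fq[X]) (θ : E) (q d : ℕ) (lm : F), Dat Fq E w θ q d → CFD Fq F w q lm →
  ∃ v : Additive (OF Fq F)ˣ →+ ℤ, ∀ ε : (OF Fq F)ˣ,
    (∀ σ : F ≃ₐ[RatFunc Fq] F, v (Additive.ofMul (Units.map (sO (Fq := Fq) σ).toMonoidHom ε)) = 0) →
    ε ^ (q ^ d - 1) = 1

/-- **GS1.** Gauss sums. Hypotheses `S_CAR → S_CAL → S_FRB → S_TOR → S_GS1`. Proof. `T tz(z) + tz(z)^q = tz(θ z)` and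
substitution `z ↦ θ z` in the sum: `θ^(q^i) g_i = T g_i + g_(i-1)^q`. Frobenius of `E` maps `(z⁻¹)^(q^i)` to
`(z⁻¹)^(q^(i+1))`. The last formula is FRB. -/
def S_GS1 : Prop := ∀ (Fq E F : Type) [Field Fq] [Fintype Fq] [Field E] [Fintype E] [Algebra Fq E]
  [Field F] [Algebra Fq[X] F] [Algebra (RatFunc Fq) F] [IsScalarTower Fq[X] (RatFunc Fq) F]
  [Algebra Fq F] [IsScalarTower Fq Fq[X] F]
  (w : Fq[X]) (θ : E) (q d : ℕ) (lm : F), Dat Fq E w θ q d → CFD Fq F w q lm →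
  (∀ i, gM (Fq := Fq) q θ d lm i ^ q =
    ((θ ^ (q ^ (i + 1))) ⊗ₜ[Fq] (1 : F) - TM Fq E F) * gM (Fq := Fq) q θ d lm (i + 1)) ∧
  (∀ i, gM (Fq := Fq) q θ d lm (i + d) = gM (Fq := Fq) q θ d lm i) ∧
  (∀ (s : F →ₐ[Fq] F) (c : E), c ≠ 0 →
    (∀ z, s (tz (Fq := Fq) q θ d lm z) = tz (Fq := Fq) q θ d lm (c * z)) →
    ∀ i, Algebra.TensorProduct.map (AlgHom.id Fq E) s (gM (Fq := Fq) q θ d lm i) =
      ((c ^ (q ^ i)) ⊗ₜ[Fq] (1 : F)) * gM (Fq := Fq) q θ d lm i) ∧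
  (∀ (s : E →ₐ[Fq] E), (∀ e, s e = e ^ q) →
    ∀ i, Algebra.TensorProduct.map s (AlgHom.id Fq F) (gM (Fq := Fq) q θ d lm i) =
      gM (Fq := Fq) q θ d lm (i + 1)) ∧
  (1 : E) ⊗ₜ[Fq] (algebraMap Fq[X] F w) = ∏ i ∈ range d, (TM Fq E F - (θ ^ (q ^ i)) ⊗ₜ[Fq] (1 : F))

/-- **GS2.** The Cartier operator on `E ⊗ F`. Proof. `e ⊗ x ↦ e^(1/p) ⊗ Cr x` is balanced over `Fq` (`Cr (c^p x) = c Cr x`),
`TensorProduct.liftAddHom`. -/
def S_GS2 : Prop := ∀ (Fq E F : Type) [Field Fq] [Fintype Fq] [Field E] [Fintype E] [Algebra Fq E]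
  [Field F] [Algebra Fq F] (p : ℕ) (T : F) (Cr : F →+ F), p.Prime → CharP Fq p → IsCart p T Cr →
  ∃ CM : E ⊗[Fq] F →+ E ⊗[Fq] F, (∀ (e : E) (x : F), CM ((e ^ p) ⊗ₜ[Fq] x) = e ⊗ₜ[Fq] (Cr x)) ∧
    ∀ x y, CM (x ^ p * y) = x * CM y

/-- **GS3.** The fixed point property. Hypotheses `S_GS1 → S_DIG → S_GS3`. Proof. `φ = Frobenius ⊗ id`.
`φ(y_f) = ∏ g_(i+1)^(k_i) f^φ(T) / w`, and `∏ g_(i+1)^(k_i) ∏ (θ_(i+1) - T)^(k_i) = ∏ g_i^(q k_i)`; multiply by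
`∏ (T - θ_(i+1))^(q-1-k_i)` and use `∏ (T - θ_(i+1)) = w` (shift by one, period `d`): `w^(q-1) ∏ g_(i+1)^(k_i)
= (∏ g_i^(k_i))^q ∏ (T - θ_(i+1))^(q-1-k_i)` (sign `(-1)^(∑ k_i) = 1`). So `φ(y_f) = (∏ g_i^(k_i) / w)^q (f P)^φ(T)`. The iterate
`CM^[f₀]` satisfies `CM^[f₀](x^q y) = x CM^[f₀] y`, `CM^[f₀] (T^(q i + q - 1)) = T^i`, `CM^[f₀](T^j) = 0` for the other `j`
(`p`-adic digits), and it is inverse to `φ` on `E`, so `CM^[f₀] (h^φ(T)) = (Λ_q h)(T)` for `h ∈ E[X]`. -/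
def S_GS3 : Prop := ∀ (Fq E F : Type) [Field Fq] [Fintype Fq] [Field E] [Fintype E] [Algebra Fq E]
  [Field F] [Algebra Fq[X] F] [Algebra (RatFunc Fq) F] [IsScalarTower Fq[X] (RatFunc Fq) F]
  [Algebra Fq F] [IsScalarTower Fq Fq[X] F]
  (w : Fq[X]) (θ : E) (p f₀ q d k : ℕ) (lm : F) (Cr : F →+ F) (CM : E ⊗[Fq] F →+ E ⊗[Fq] F)
  (s : E →ₐ[Fq] E) (f : E[X]), Dat Fq E w θ q d → CFD Fq F w q lm → p.Prime → q = p ^ f₀ →
  0 < k → k < q ^ d - 1 → (q - 1) ∣ k → IsCart p (algebraMap Fq[X] F X) Cr →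
  (∀ (e : E) (x : F), CM ((e ^ p) ⊗ₜ[Fq] x) = e ⊗ₜ[Fq] (Cr x)) → (∀ x y, CM (x ^ p * y) = x * CM y) →
  (∀ e, s e = e ^ q) → Lam q (f * PP q d k θ) = f →
  CM^[f₀] (Algebra.TensorProduct.map s (AlgHom.id Fq F) (yM q d k w θ lm f)) = yM q d k w θ lm f

/-- **TGA.** The traces `T_γ`. Hypotheses `S_GS1 → S_GS2 → S_GS3 → S_OFA → S_EMB → S_FRB → S_DIG → S_TOR → S_GAL → S_GRL → S_HTH →
S_SBR → S_TGA`. Proof. `Tg f γ = (Tr_(E/Fq) ⊗ id)((γ ⊗ 1) y_f)`. Additive; `y_(e f) = (e ⊗ 1) y_f`. Galois: `(id ⊗ σ) y_f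
= (u(σ)^k ⊗ 1) y_f` (GS1, `∑ k_i q^i = k`; `f(T)`, `w` are fixed). Integrality: `y_f` is in the `E`-span of `1 ⊗ λ^(-(Q-2)) x`, `x`
integral (each `g_i` is in the span of `tz z ∈ λ O`, at least one `k_i > 0`, and `w = λ^(Q-1) ε`). Fixed points: if
`Λ_q(f P) = f` then `CM^[f₀] y_f = φ⁻¹ y_f`, so `Cr^[f₀] (Tg f γ) = (Tr ⊗ id)(γ^(1/q) φ⁻¹ y_f) = (Tr ⊗ id)(φ⁻¹(γ y_f)) = Tg f γ`
(`Cr ∘ (Tr ⊗ id) = (Tr ⊗ id) ∘ CM`). Nonvanishing: `j : E ⊗ F → E((π))`, `e ⊗ x ↦ e ι(x)` maps `g_i` to `a₀^(q^i) g_i^∞`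
(EMB; `∑_(z ≠ 0) z^(-q^i) z^(q^j) = - δ_(ij)` for `i, j < d`), so `j(y_f) ≠ 0` for `f ≠ 0` (`TT` is transcendental), so
`y_f ≠ 0`, and the trace form is nondegenerate. -/
def S_TGA : Prop := ∀ (Fq E F : Type) [Field Fq] [Fintype Fq] [Field E] [Fintype E] [Algebra Fq E]
  [Field F] [Algebra Fq[X] F] [Algebra (RatFunc Fq) F] [IsScalarTower Fq[X] (RatFunc Fq) F]
  [Algebra Fq F] [IsScalarTower Fq Fq[X] F]
  (w : Fq[X]) (θ : E) (p f₀ q d k : ℕ) (lm : F) (Cr : F →+ F) (u : (F ≃ₐ[RatFunc Fq] F) →* E),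
  Dat Fq E w θ q d → CFD Fq F w q lm → p.Prime → q = p ^ f₀ → 0 < k → k < q ^ d - 1 → (q - 1) ∣ k →
  IsCart p (algebraMap Fq[X] F X) Cr → (∀ σ, u σ ≠ 0) →
  (∀ σ z, σ (tz (Fq := Fq) q θ d lm z) = tz (Fq := Fq) q θ d lm (u σ * z)) →
  ∃ Tg : E[X] →+ (E →+ F), (∀ (e : E) f γ, Tg (C e * f) γ = Tg f (e * γ)) ∧
    (∀ (c : Fq) f γ, Tg f (algebraMap Fq E c * γ) = algebraMap Fq F c * Tg f γ) ∧
    (∀ f γ, IsIntegral Fq[X] (lm ^ (q ^ d - 2) * Tg f γ)) ∧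
    (∀ f γ (σ : F ≃ₐ[RatFunc Fq] F), σ (Tg f γ) = Tg f (u σ ^ k * γ)) ∧
    (∀ f, f ≠ 0 → ∃ γ, Tg f γ ≠ 0) ∧
    ∀ f, Lam q (f * PP q d k θ) = f → ∀ γ, Cr^[f₀] (Tg f γ) = Tg f γ

/-- **ZGA.** `zg f γ = ∑_(s < f₀) Cr^s (Tg f γ)`. Hypothesis `S_TGA → S_ZGA`. Nonvanishing: if `zg f (c γ) = 0` for all `c ∈ Fq`, then
`∑_s c^(1/p^s) Cr^s(Tg f γ) = 0`, a polynomial in `c^(1/p^(f₀-1))` of degree `< q` with `q` zeros, so `Tg f γ = 0`. -/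
def S_ZGA : Prop := ∀ (Fq E F : Type) [Field Fq] [Fintype Fq] [Field E] [Fintype E] [Algebra Fq E]
  [Field F] [Algebra Fq[X] F] [Algebra (RatFunc Fq) F] [IsScalarTower Fq[X] (RatFunc Fq) F]
  [Algebra Fq F] [IsScalarTower Fq Fq[X] F]
  (w : Fq[X]) (θ : E) (p f₀ q d k : ℕ) (lm : F) (Cr : F →+ F) (u : (F ≃ₐ[RatFunc Fq] F) →* E),
  Dat Fq E w θ q d → CFD Fq F w q lm → p.Prime → q = p ^ f₀ → 0 < k → k < q ^ d - 1 → (q - 1) ∣ k →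
  IsCart p (algebraMap Fq[X] F X) Cr → (∀ (σ : F ≃ₐ[RatFunc Fq] F) x, Cr (σ x) = σ (Cr x)) →
  (∀ x, IsIntegral Fq[X] (lm ^ (q ^ d - 2) * x) → IsIntegral Fq[X] (lm ^ (q ^ d - 2) * Cr x)) →
  (∀ σ, u σ ≠ 0) →
  (∀ σ z, σ (tz (Fq := Fq) q θ d lm z) = tz (Fq := Fq) q θ d lm (u σ * z)) →
  ∃ zg : E[X] →+ (E →+ F), (∀ (e : E) f γ, zg (C e * f) γ = zg f (e * γ)) ∧
    (∀ f γ, IsIntegral Fq[X] (lm ^ (q ^ d - 2) * zg f γ)) ∧
    (∀ f γ (σ : F ≃ₐ[RatFunc Fq] F), σ (zg f γ) = zg f (u σ ^ k * γ)) ∧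
    (∀ f, Lam q (f * PP q d k θ) = f → f ≠ 0 → ∃ γ, zg f γ ≠ 0) ∧
    ∀ f, Lam q (f * PP q d k θ) = f → ∀ γ, Cr (zg f γ) = zg f γ

/-- **HLG.** Logarithms. Hypotheses `S_GAL → S_DED → S_JCL → S_HLG`. Proof. `Cr z = z` gives `D^(p-1) z = - z^p`, JCL gives `h`.
`O` is a Dedekind domain with field of fractions `F` (`integralClosure.isDedekindDomain`; finite, separable); apply DED to
`δ = λ^(Q-2) D`: `δ h / h = λ^(Q-2) z` is integral. -/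
def S_HLG : Prop := ∀ (Fq E F : Type) [Field Fq] [Fintype Fq] [Field E] [Fintype E] [Algebra Fq E]
  [Field F] [Algebra Fq[X] F] [Algebra (RatFunc Fq) F] [IsScalarTower Fq[X] (RatFunc Fq) F]
  [IsFractionRing (OF Fq F) F]
  (w : Fq[X]) (θ : E) (p q d : ℕ) (lm : F) (D Cr : F →+ F) (z : F), Dat Fq E w θ q d → CFD Fq F w q lm →
  p.Prime → p ∣ q → IsDd (Fq := Fq) D →
  (∀ x, IsIntegral Fq[X] x → IsIntegral Fq[X] (lm ^ (q ^ d - 2) * D x)) →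
  (∀ 𝔪 : Ideal (OF Fq F), 𝔪.IsMaximal → ∃ x ∈ 𝔪, ∃ y : OF Fq F,
      (y : F) = lm ^ (q ^ d - 2) * D (x : F) ∧ y ∉ 𝔪) →
  (∀ x, D^[p] x = 0) → (∀ x, Cr x ^ p = - D^[p - 1] x) → Cr z = z →
  IsIntegral Fq[X] (lm ^ (q ^ d - 2) * z) →
  ∃ h : F, h ≠ 0 ∧ D h = z * h ∧ ∃ I : (FractionalIdeal (OF Fq F)⁰ F)ˣ,
    FractionalIdeal.spanSingleton (OF Fq F)⁰ h =
      ((I ^ p : (FractionalIdeal (OF Fq F)⁰ F)ˣ) : FractionalIdeal (OF Fq F)⁰ F)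

end Run7.h400.GK
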